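import Pool.Agent.Q267.E8.Main2
import Pool.Agent.Q267.E8.K1
import Pool.Agent.Q267.E8.EK
import Pool.Agent.Q64.E8.C2
import Pool.Agent.Q121.E8.RP
import Mathlib.Algebra.DualNumber

set_option autoImplicit false

/-!
# Derivatives of the identities of project E8 by dual numbers
-/

namespace Pool.Agent.U295.SP

open Finset Pool.Agent.Q267.CDE Pool.Agent.Q267.MW Pool.Agent.Q267.E8

section defs

variable {S : Type} [CommRing S]

/-- `z F'(z)` -/
def tF (m : ℕ) (z : S) : S :=
  ∑ k ∈ range (m + 1), (-1) ^ k * ((m.choose k : ℕ) : S) * (((m + k).choose k : ℕ) : S) * (z ^ k * k)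

/-- `z K'(z)` -/
def tK (m : ℕ) (z : S) : S := ∑ k ∈ range (m + 1), ((m.choose k : ℕ) : S) ^ 2 * (z ^ k * k)

/-- `z Kr'(z)` -/
def tKr (m : ℕ) (z : S) : S :=
  ∑ k ∈ range (m + 1), (-1) ^ k * ((m.choose k : ℕ) : S) * (((m + k).choose k : ℕ) : S) *
    (z ^ (m - k) * ((m - k : ℕ) : S))

/-- `w E'(w)` -/
def tE (m : ℕ) (w : S) : S :=
  ∑ k ∈ range (m + 1), ((m.choose k : ℕ) : S) * ((k.centralBinom : ℕ) : S) * (w ^ k * k)

end defs

section dual

variable {D : Type} [CommRing D] (e : D) (he : e ^ 2 = 0)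

include he

theorem pow1 (c : D) (k : ℕ) : (1 + c * e) ^ k = 1 + k * c * e := by
  induction k with
  | zero => simp
  | succ k ih =>
    rw [pow_succ, ih]
    push_cast
    linear_combination (k * c ^ 2) * he

theorem pow2 (z c : D) (k : ℕ) : (z * (1 + c * e)) ^ k = z ^ k + c * (z ^ k * k) * e := by
  rw [mul_pow, pow1 e he]
  ring

theorem F_dual (m : ℕ) (z c : D) : Ff m (z * (1 + c * e)) = Ff m z + c * tF m z * e := by
  unfold Ff tF
  rw [mul_sum, sum_mul, ← sum_add_distrib]
  refine sum_congr rfl fun k _ => ?_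
  rw [pow2 e he]
  ring

theorem K_dual (m : ℕ) (z c : D) : Kf m (z * (1 + c * e)) = Kf m z + c * tK m z * e := by
  unfold Kf tK
  rw [mul_sum, sum_mul, ← sum_add_distrib]
  refine sum_congr rfl fun k _ => ?_
  rw [pow2 e he]
  ring

theorem Kr_dual (m : ℕ) (z c : D) : Kr m (z * (1 + c * e)) = Kr m z + c * tKr m z * e := by
  unfold Kr tKr
  rw [mul_sum, sum_mul, ← sum_add_distrib]
  refine sum_congr rfl fun k _ => ?_
  rw [pow2 e he]
  ring

theorem E_dual (m : ℕ) (z c : D) : Ef m (z * (1 + c * e)) = Ef m z + c * tE m z * e := by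
  unfold Ef tE
  rw [mul_sum, sum_mul, ← sum_add_distrib]
  refine sum_congr rfl fun k _ => ?_
  rw [pow2 e he]
  ring

/-- the `p`-th power of `a + b e` -/
theorem powp (a b : D) (k : ℕ) : (a + b * e) ^ (k + 1) = a ^ (k + 1) + (k + 1) * a ^ k * b * e := by
  induction k with
  | zero => simp
  | succ k ih =>
    rw [pow_succ, ih]
    push_cast
    linear_combination ((k + 1) * a ^ k * b ^ 2) * he

end dual

section maps

variable {S D : Type} [CommRing S] [CommRing D] (i : S →+* D)

theorem Ff_map (m : ℕ) (z : S) : Ff m (i z) = i (Ff m z) := by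
  unfold Ff
  rw [map_sum]
  refine sum_congr rfl fun k _ => ?_
  simp only [map_mul, map_pow, map_neg, map_one, map_natCast]

theorem tF_map (m : ℕ) (z : S) : tF m (i z) = i (tF m z) := by
  unfold tF
  rw [map_sum]
  refine sum_congr rfl fun k _ => ?_
  simp only [map_mul, map_pow, map_neg, map_one, map_natCast]

theorem Kf_map (m : ℕ) (z : S) : Kf m (i z) = i (Kf m z) := by
  unfold Kf
  rw [map_sum]
  refine sum_congr rfl fun k _ => ?_
  simp only [map_mul, map_pow, map_natCast]

theorem tK_map (m : ℕ) (z : S) : tK m (i z) = i (tK m z) := by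
  unfold tK
  rw [map_sum]
  refine sum_congr rfl fun k _ => ?_
  simp only [map_mul, map_pow, map_natCast]

theorem Kr_map (m : ℕ) (z : S) : Kr m (i z) = i (Kr m z) := by
  unfold Kr
  rw [map_sum]
  refine sum_congr rfl fun k _ => ?_
  simp only [map_mul, map_pow, map_neg, map_one, map_natCast]

theorem tKr_map (m : ℕ) (z : S) : tKr m (i z) = i (tKr m z) := by
  unfold tKr
  rw [map_sum]
  refine sum_congr rfl fun k _ => ?_
  simp only [map_mul, map_pow, map_neg, map_one, map_natCast]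

theorem Ef_map (m : ℕ) (z : S) : Ef m (i z) = i (Ef m z) := by
  unfold Ef
  rw [map_sum]
  refine sum_congr rfl fun k _ => ?_
  simp only [map_mul, map_pow, map_natCast]

theorem tE_map (m : ℕ) (z : S) : tE m (i z) = i (tE m z) := by
  unfold tE
  rw [map_sum]
  refine sum_congr rfl fun k _ => ?_
  simp only [map_mul, map_pow, map_natCast]

end maps

section extract

variable {S : Type} [CommRing S]

/-- the embedding -/
def io : S →+* DualNumber S := algebraMap S (DualNumber S)

/-- the infinitesimal -/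
def ep : DualNumber S := DualNumber.eps

theorem ep_sq : (ep : DualNumber S) ^ 2 = 0 := by
  rw [pow_two]
  exact DualNumber.eps_mul_eps

theorem coef {a b a' b' : S} (h : io a + io b * ep = io a' + io b' * (ep : DualNumber S)) : b = b' := by
  have h1 := congrArg TrivSqZeroExt.snd h
  simpa [io, ep, TrivSqZeroExt.algebraMap_eq_inl] using h1

end extract

/-- derivative of K1 at `-2(1+r)` -/
theorem dK1 {S : Type} [CommRing S] (m : ℕ) (r : S) (hr : r ^ 2 = 2) :
    tK m (-2 * (1 + r)) = (1 + r) ^ (2 * m) * ((1 - r) ^ 2 * tF m (-2 * (1 - r)) -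
      2 * m * (1 - r) * Ff m (-2 * (1 - r))) := by
  have he := ep_sq (S := S)
  set e : DualNumber S := ep with hedef
  set R : DualNumber S := io r with hR
  have hrr : R ^ 2 = 2 := by rw [hR, ← map_pow, hr, map_ofNat]
  have h1 := k1 (DualNumber S) m (-2 * (1 + R) * (1 + 1 * e)) ((1 - R) ^ 2 * (1 + 2 * (1 - R) * e)) (by
    grind)
  have e1 : 1 - -2 * (1 + R) * (1 + 1 * e) = (1 + R) ^ 2 * (1 + (-2 * (1 - R)) * e) := by grind
  have e2 : -(-2 * (1 + R) * (1 + 1 * e) * ((1 - R) ^ 2 * (1 + 2 * (1 - R) * e))) =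
      -2 * (1 - R) * (1 + (1 - R) ^ 2 * e) := by grind
  rw [e1, e2, K_dual e he, F_dual e he, pow2 e he, ← pow_mul] at h1
  have z1 : -2 * (1 + R) = io (-2 * (1 + r)) := by rw [hR, map_mul, map_neg, map_ofNat, map_add, map_one]
  have z2 : -2 * (1 - R) = io (-2 * (1 - r)) := by rw [hR, map_mul, map_neg, map_ofNat, map_sub, map_one]
  rw [z1, z2, Kf_map, tK_map, Ff_map, tF_map] at h1
  apply coef (a := Kf m (-2 * (1 + r))) (a' := (1 + r) ^ (2 * m) * Ff m (-2 * (1 - r)))
  simp only [map_mul, map_pow, map_add, map_sub, map_one, map_natCast, map_neg, map_ofNat, ← hR, ← hedef] at h1 ⊢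
  linear_combination h1 + ((1 + R) ^ (2 * m) * (-2 * (1 - R)) * m * (1 - R) ^ 2 * io (tF m (-2 * (1 - r)))) * he

/-- derivative of EK -/
theorem dEK (p m : ℕ) [Fact p.Prime] (S : Type) [CommRing S] [Algebra (R p) S] (z w : S) (hp : p = 2 * m + 1)
    (hw : -4 * w = z) : 2 * tE m w = tF m z + tK m z := by
  have he := ep_sq (S := S)
  have h1 := ek p m (DualNumber S) (io z * (1 + 1 * ep)) (io w * (1 + 1 * ep)) hp (by
    rw [← hw, map_mul, map_neg, map_ofNat]
    ring)
  rw [E_dual ep he, F_dual ep he, K_dual ep he, Ef_map, tE_map, Ff_map, tF_map, Kf_map, tK_map] at h1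
  apply coef (a := 2 * Ef m w) (a' := Ff m z + Kf m z)
  simp only [map_mul, map_add, map_ofNat]
  linear_combination h1

/-- derivative of LD and K2 -/
theorem dLD {S : Type} [CommRing S] (m : ℕ) (r g : S) (hr : r ^ 2 = 2) (hg : 2 * g = 1) :
    (-1) ^ m * tKr m (-2 * (1 - r)) = -(2 ^ m * (m * r * Ef m ((1 - r) * g) + tE m ((1 - r) * g))) := by
  have he := ep_sq (S := S)
  set e : DualNumber S := ep with hedef
  set R : DualNumber S := io r with hR
  set H : DualNumber S := io g with hH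
  have hrr : R ^ 2 = 2 := by rw [hR, ← map_pow, hr, map_ofNat]
  have hgg : 2 * H = 1 := by
    have := congrArg io hg
    rwa [map_mul, map_ofNat, map_one] at this
  have h1 := Pool.Agent.Q164.E8.ld (DualNumber S) m (R - 1 - e) (H * (1 + R * e)) (by grind)
  have h2 := Pool.Agent.Q121.E8.k2 (DualNumber S) m (-2 * (1 - R) * (1 + 1 * e))
  have e1 : 1 - -2 * (1 - R) * (1 + 1 * e) = (R - 1 - e) ^ 2 := by grind
  rw [e1, h1, Kr_dual e he] at h2
  have e2 : -((R - 1 - e) * (H * (1 + R * e))) = (1 - R) * H * (1 + (-1) * e) := by grind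
  have e3 : (1 + (R - 1 - e)) ^ (2 * m) = 2 ^ m * (1 + -(m * R) * e) := by
    rw [pow_mul, show (1 + (R - 1 - e)) ^ 2 = 2 * (1 + (-R) * e) by grind, mul_pow, pow1 e he]
    ring
  rw [e2, e3, E_dual e he] at h2
  have z1 : -2 * (1 - R) = io (-2 * (1 - r)) := by rw [hR, map_mul, map_neg, map_ofNat, map_sub, map_one]
  have z2 : (1 - R) * H = io ((1 - r) * g) := by rw [hR, hH, map_mul, map_sub, map_one]
  rw [z1, z2, Kr_map, tKr_map, Ef_map, tE_map] at h2
  apply coef (a := (-1) ^ m * Kr m (-2 * (1 - r))) (a' := 2 ^ m * Ef m ((1 - r) * g))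
  simp only [map_mul, map_pow, map_add, map_one, map_natCast, map_neg, map_ofNat, ← hR, ← hedef] at h2 ⊢
  linear_combination -h2 + (2 ^ m * m * R * io (tE m ((1 - r) * g))) * he

/-- derivative of II -/
theorem dII (p m : ℕ) [Fact p.Prime] (S : Type) [CommRing S] [Algebra (R p) S] (z : S) (hp : p = 2 * m + 1)
    (h3 : 3 < p) :
    (p * z ^ p - p * (1 - z) ^ (p - 1) * z) * Ff m z + (1 + z ^ p + (1 - z) ^ p) * tF m z =
      -2 * p * z ^ p * Kf m z + 2 * (1 - z ^ p) * tK m z + 2 * p * z ^ p * Kr m z + 2 * z ^ p * tKr m z := by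
  have he := ep_sq (S := S)
  set e : DualNumber S := ep with hedef
  have h1 := Pool.Agent.Q192.E8.ii Pool.Agent.Q265.E8.lg Pool.Agent.Q265.E8.lm Pool.Agent.Q153.E8.df
    p m (DualNumber S) (io z * (1 + 1 * e)) hp h3
  have e1 : (1 - io z * (1 + 1 * e)) ^ p = (1 - io z) ^ p + p * (1 - io z) ^ (p - 1) * (-io z) * e := by
    have h2 := powp e he (1 - io z) (-io z) (p - 1)
    rw [show p - 1 + 1 = p by omega] at h2
    rw [show 1 - io z * (1 + 1 * e) = 1 - io z + -io z * e by ring, h2]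
    have h4 : (((p - 1 : ℕ) : DualNumber S)) + 1 = p := by
      rw [← Nat.cast_succ]
      congr 1
      omega
    rw [h4]
  rw [e1, pow2 e he, F_dual e he, K_dual e he, Kr_dual e he, Ff_map, tF_map, Kf_map, tK_map, Kr_map, tKr_map] at h1
  apply coef (a := (1 + z ^ p + (1 - z) ^ p) * Ff m z) (a' := 2 * (1 - z ^ p) * Kf m z + 2 * z ^ p * Kr m z)
  simp only [map_mul, map_pow, map_add, map_sub, map_one, map_natCast, map_neg, map_ofNat, ← hedef] at h1 ⊢
  linear_combination h1 - ((io z ^ p * p - p * (1 - io z) ^ (p - 1) * io z) * io (tF m z) +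
    2 * (io z ^ p * p) * io (tK m z) - 2 * (io z ^ p * p) * io (tKr m z)) * he

/-- the coefficient in the sums below -/
def cf (p m n j : ℕ) (h : R p) : R p :=
  ((m.choose (2 * j) : ℕ) : R p) * ((j.centralBinom : ℕ) : R p) * (h ^ 2) ^ j * 2 ^ (n - j)

/-- derivative of EV at `e/2` -/
theorem dEV (p m : ℕ) [Fact p.Prime] (S : Type) [CommRing S] [Algebra (R p) S] (r : S) (h : R p)
    (hr : r ^ 2 = 2) (hh : 2 * h = 1) (c : ℕ → S)
    (hc : ∀ j ≤ m / 2, ((m.choose (2 * j) : ℕ) : S) * ((j.centralBinom : ℕ) : S) *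
      (r * (1 + r)) ^ (m - 2 * j) * (((1 + r) * algebraMap (R p) S h) ^ 2) ^ j = c j) :
    tE m ((1 + r) * algebraMap (R p) S h) =
      ∑ j ∈ range (m / 2 + 1), c j * ((m - 2 * j) * (r * algebraMap (R p) S h) + 2 * j) := by
  have he := ep_sq (S := S)
  set e : DualNumber S := ep with hedef
  set H : S := algebraMap (R p) S h with hH
  have hHH : 2 * H = 1 := by
    have := congrArg (algebraMap (R p) S) hh
    rwa [map_mul, map_ofNat, map_one] at this
  have h1 := ev (DualNumber S) m (io ((1 + r) * H) * (1 + 1 * e))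
  have e1 : 1 + 2 * (io ((1 + r) * H) * (1 + 1 * e)) = io (r * (1 + r)) * (1 + io (r * H) * e) := by
    simp only [map_mul, map_add, map_one]
    have hrr : (io r : DualNumber S) ^ 2 = 2 := by rw [← map_pow, hr, map_ofNat]
    have hgg : 2 * (io H : DualNumber S) = 1 := by
      have := congrArg io hHH
      rwa [map_mul, map_ofNat, map_one] at this
    grind
  have e2 : (io ((1 + r) * H) * (1 + 1 * e)) ^ 2 = io (((1 + r) * H) ^ 2) * (1 + 2 * e) := by
    rw [map_pow]
    linear_combination (io ((1 + r) * H)) ^ 2 * he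
  rw [e1, e2, E_dual e he, Ef_map, tE_map] at h1
  unfold Pf at h1
  have e3 : ∀ j ∈ range (m / 2 + 1), ((m.choose (2 * j) : ℕ) : DualNumber S) *
      ((j.centralBinom : ℕ) : DualNumber S) * (io (r * (1 + r)) * (1 + io (r * H) * e)) ^ (m - 2 * j) *
      (io (((1 + r) * H) ^ 2) * (1 + 2 * e)) ^ j =
      io (c j) + io (c j * ((m - 2 * j) * (r * H) + 2 * j)) * e := by
    intro j hj
    have hj' : j ≤ m / 2 := by
      rw [mem_range] at hj
      omega
    rw [pow2 e he, pow2 e he]
    have h3 := congrArg (io (S := S)) (hc j hj')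
    have a3 : ((m - 2 * j : ℕ) : DualNumber S) = m - 2 * j := by
      rw [Nat.cast_sub (by omega)]
      push_cast
      ring
    rw [a3]
    simp only [map_mul, map_pow, map_natCast, map_add, map_sub, map_ofNat, map_one] at h3 ⊢
    linear_combination (1 + ((m - 2 * j) * (io r * io H) + 2 * j) * e) * h3 +
      (((m.choose (2 * j) : ℕ) : DualNumber S) * ((j.centralBinom : ℕ) : DualNumber S) *
      (io r * (1 + io r)) ^ (m - 2 * j) * (((1 + io r) * io H) ^ 2) ^ j * 
      ((m - 2 * j) * (io r * io H)) * (2 * j)) * he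
  rw [sum_congr rfl e3, sum_add_distrib, ← sum_mul, ← map_sum, ← map_sum] at h1
  apply coef (a := Ef m ((1 + r) * H)) (a' := ∑ j ∈ range (m / 2 + 1), c j)
  rw [← h1]
  ring

/-- odd case -/
theorem dEVo (p n : ℕ) [Fact p.Prime] (S : Type) [CommRing S] [Algebra (R p) S] (r : S) (h : R p)
    (hr : r ^ 2 = 2) (hh : 2 * h = 1) : tE (2 * n + 1) ((1 + r) * algebraMap (R p) S h) =
      (1 + r) ^ (2 * n + 1) * ((2 * n + 1) * algebraMap (R p) S (∑ j ∈ range (n + 1), cf p (2 * n + 1) n j h) +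
        (r - 1) * algebraMap (R p) S (∑ j ∈ range (n + 1), 2 * j * cf p (2 * n + 1) n j h)) := by
  have hHH : 2 * algebraMap (R p) S h = 1 := by
    have := congrArg (algebraMap (R p) S) hh
    rwa [map_mul, map_ofNat, map_one] at this
  rw [dEV p (2 * n + 1) S r h hr hh (fun j => r * (1 + r) ^ (2 * n + 1) * algebraMap (R p) S
    (cf p (2 * n + 1) n j h)), show (2 * n + 1) / 2 = n by omega, map_sum, map_sum, mul_sum, mul_sum,
    ← sum_add_distrib, mul_sum]
  · refine sum_congr rfl fun j _ => ?_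
    simp only [map_mul, map_natCast, map_ofNat]
    push_cast
    linear_combination ((1 + r) ^ (2 * n + 1) * algebraMap (R p) S (cf p (2 * n + 1) n j h) *
      (2 * n + 1 - 2 * j)) * (algebraMap (R p) S h * hr + hHH)
  · intro j hj
    have hj' : j ≤ n := by omega
    unfold cf
    simp only [map_mul, map_pow, map_natCast, map_ofNat]
    have a1 : r ^ (2 * (n - j)) = 2 ^ (n - j) := by rw [pow_mul, hr]
    have a2 : 2 * n + 1 - 2 * j = 2 * (n - j) + 1 := by omega
    have a5 : (1 + r) ^ (2 * n + 1) = (1 + r) ^ (2 * (n - j) + 1) * ((1 + r) ^ 2) ^ j := by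
      rw [← pow_mul, ← pow_add]
      congr 1
      omega
    rw [a2, a5, mul_pow, mul_pow, mul_pow, pow_succ r, a1]
    ring

/-- even case -/
theorem dEVe (p n : ℕ) [Fact p.Prime] (S : Type) [CommRing S] [Algebra (R p) S] (r : S) (h : R p)
    (hr : r ^ 2 = 2) (hh : 2 * h = 1) : tE (2 * n) ((1 + r) * algebraMap (R p) S h) =
      (1 + r) ^ (2 * n) * ((2 * n) * (r * algebraMap (R p) S h) *
        algebraMap (R p) S (∑ j ∈ range (n + 1), cf p (2 * n) n j h) +
        (1 - r * algebraMap (R p) S h) * algebraMap (R p) S (∑ j ∈ range (n + 1), 2 * j * cf p (2 * n) n j h)) := by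
  rw [dEV p (2 * n) S r h hr hh (fun j => (1 + r) ^ (2 * n) * algebraMap (R p) S
    (cf p (2 * n) n j h)), show (2 * n) / 2 = n by omega, map_sum, map_sum, mul_sum, mul_sum,
    ← sum_add_distrib, mul_sum]
  · refine sum_congr rfl fun j _ => ?_
    simp only [map_mul, map_natCast, map_ofNat]
    push_cast
    ring
  · intro j hj
    have hj' : j ≤ n := by omega
    unfold cf
    simp only [map_mul, map_pow, map_natCast, map_ofNat]
    have a1 : r ^ (2 * (n - j)) = 2 ^ (n - j) := by rw [pow_mul, hr]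
    have a2 : 2 * n - 2 * j = 2 * (n - j) := by omega
    have a5 : (1 + r) ^ (2 * n) = (1 + r) ^ (2 * (n - j)) * ((1 + r) ^ 2) ^ j := by
      rw [← pow_mul, ← pow_add]
      congr 1
      omega
    rw [a2, a5, mul_pow, mul_pow, mul_pow, a1]
    ring

end Pool.Agent.U295.SP
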