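import Pool.Agent.U295.SP.A

set_option autoImplicit false

/-!
# The alternating sums of squares at odd arguments and the derivative of the Legendre polynomial at `√2`
-/

namespace Pool.Agent.U295.SP

open Finset Pool.Agent.Q267.CDE Pool.Agent.Q267.MW Pool.Agent.Q267.E8

/-- odd case of the derivative sum -/
theorem G1_odd (p n : ℕ) (h : R p) :
    ∑ j ∈ range (n + 1), 2 * j * cf p (2 * n + 1) n j h =
      (2 * n + 1) * (∑ j ∈ range (n + 1), cf p (2 * n + 1) n j h - ∑ j ∈ range (n + 1), cf p (2 * n) n j h) := by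
  rw [← sum_sub_distrib, mul_sum]
  refine sum_congr rfl fun j _ => ?_
  have key : (2 * (j : R p)) * (((2 * n + 1).choose (2 * j) : ℕ) : R p) =
      (2 * n + 1) * ((((2 * n + 1).choose (2 * j) : ℕ) : R p) - (((2 * n).choose (2 * j) : ℕ) : R p)) := by
    rcases j with _ | j
    · simp
    · have h1 := Nat.add_one_mul_choose_eq (2 * n) (2 * j + 1)
      have h2 := Nat.choose_succ_succ (2 * n) (2 * j + 1)
      have h1' := congrArg (Nat.cast : ℕ → R p) h1
      have h2' := congrArg (Nat.cast : ℕ → R p) h2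
      have e1 : 2 * (j + 1) = (2 * j + 1).succ := by omega
      rw [e1]
      push_cast at h1' h2' ⊢
      linear_combination -h1' - (2 * (n : R p) + 1) * h2'
  unfold cf
  linear_combination (((j.centralBinom : ℕ) : R p) * (h ^ 2) ^ j * 2 ^ (n - j)) * key

/-- even case of the derivative sum -/
theorem G1_even (p n : ℕ) (h : R p) :
    ∑ j ∈ range (n + 1 + 1), 2 * j * cf p (2 * (n + 1)) (n + 1) j h =
      (2 * (n + 1)) * (∑ j ∈ range (n + 1 + 1), cf p (2 * (n + 1)) (n + 1) j h -
        2 * ∑ j ∈ range (n + 1), cf p (2 * n + 1) n j h) := by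
  have hlast : ∑ j ∈ range (n + 1 + 1), ((((2 * n + 1).choose (2 * j) : ℕ) : R p) * ((j.centralBinom : ℕ) : R p) *
      (h ^ 2) ^ j * 2 ^ (n + 1 - j)) = 2 * ∑ j ∈ range (n + 1), cf p (2 * n + 1) n j h := by
    rw [sum_range_succ, Nat.choose_eq_zero_of_lt (by omega), mul_sum]
    push_cast
    rw [zero_mul, zero_mul, zero_mul, add_zero]
    refine sum_congr rfl fun j hj => ?_
    rw [mem_range] at hj
    unfold cf
    rw [show n + 1 - j = (n - j) + 1 by omega, pow_succ (2 : R p)]
    ring
  rw [← hlast, ← sum_sub_distrib, mul_sum]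
  refine sum_congr rfl fun j _ => ?_
  have key : (2 * (j : R p)) * (((2 * (n + 1)).choose (2 * j) : ℕ) : R p) =
      (2 * (n + 1)) * ((((2 * (n + 1)).choose (2 * j) : ℕ) : R p) - (((2 * n + 1).choose (2 * j) : ℕ) : R p)) := by
    rcases j with _ | j
    · simp
    · have h1 := Nat.add_one_mul_choose_eq (2 * n + 1) (2 * j + 1)
      have h2 := Nat.choose_succ_succ (2 * n + 1) (2 * j + 1)
      have h1' := congrArg (Nat.cast : ℕ → R p) h1
      have h2' := congrArg (Nat.cast : ℕ → R p) h2
      have e1 : 2 * (j + 1) = (2 * j + 1).succ := by omega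
      have e2 : 2 * (n + 1) = (2 * n + 1).succ := by omega
      rw [e1, e2]
      push_cast at h1' h2' ⊢
      linear_combination -h1' - (2 * ((n : R p) + 1)) * h2'
  unfold cf
  linear_combination (((j.centralBinom : ℕ) : R p) * (h ^ 2) ^ j * 2 ^ (n + 1 - j)) * key

/-- the value near `1` -/
theorem T2_one (p : ℕ) [hp : Fact p.Prime] (c : R p) (h3 : 2 < p) : T2 p (p * c + 1) = -2 * p * c := by
  unfold T2
  obtain ⟨n, hn⟩ : ∃ n, p = n + 1 + 1 := ⟨p - 2, by omega⟩
  have e : range p = range (n + 1 + 1) := by rw [← hn]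
  have hP := p_sq p
  have hz : ∀ k, k + 2 < p + 0 → bR p (p * c + 1) (k + 1 + 1) ^ 2 = 0 := by
    intro k _
    unfold bR
    rw [prod_range_succ', prod_range_succ', mul_pow, mul_pow, mul_pow]
    have h1 : ((p : R p) * c + 1 - ((0 + 1 : ℕ) : R p)) ^ 2 = 0 := by
      push_cast
      linear_combination c ^ 2 * hP
    rw [h1]
    ring
  rw [e, sum_range_succ', sum_range_succ', sum_eq_zero]
  · have b0 := Pool.Agent.Q64.E8.bR_zero p (p * c + 1)
    have b1 : bR p (p * c + 1) (0 + 1) = p * c + 1 := by
      have := Pool.Agent.Q299.E8.bR_succ p (p * c + 1) 0 (by omega)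
      rw [b0] at this
      push_cast at this ⊢
      linear_combination this
    rw [b0, b1]
    linear_combination (-c ^ 2) * hP
  · intro k hk
    rw [mem_range] at hk
    rw [hz k (by omega), mul_zero]

theorem red_ne (p : ℕ) [hp : Fact p.Prime] (c : R p) (n j : ℕ) (h0 : 0 < n + j) (hj : n + j < p) :
    red p (p * c + n) ≠ -j := by
  intro h
  rw [map_add, map_mul, red_nat, ZMod.natCast_self, zero_mul, zero_add, red_nat] at h
  have h1 : ((n + j : ℕ) : ZMod p) = 0 := by
    push_cast
    rw [h]
    ring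
  exact cast_ne p (n + j) h0 hj h1

/-- the odd values are divisible by `p`, and the product formula -/
theorem T2_prod (p : ℕ) [hp : Fact p.Prime] (c : R p) (h3 : 2 < p) (l : ℕ) : 2 * l + 1 < p →
    p * T2 p (p * c + (2 * l + 1)) = 0 ∧
    (2 * l + 1) * (T2 p (p * c + (2 * l + 1)) * T2 p (p * c + 2 * l)) = -2 * p * c * 16 ^ l := by
  have hP := p_sq p
  induction l with
  | zero =>
    intro _
    have h1 := T2_one p c h3
    have h0 := Pool.Agent.Q64.E8.t2_zero p c
    have e1 : (p : R p) * c + (2 * ((0 : ℕ) : R p) + 1) = p * c + 1 := by push_cast; ring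
    have e2 : (p : R p) * c + 2 * ((0 : ℕ) : R p) = p * c := by push_cast; ring
    rw [e1, e2, h1, h0]
    constructor
    · linear_combination (-2 * c) * hP
    · push_cast
      ring
  | succ l ih =>
    intro hl
    obtain ⟨ih1, ih2⟩ := ih (by omega)
    have ra := Pool.Agent.Q164.E8.rt p (p * c + 2 * l) (by omega)
      (by have := red_ne p c (2 * l) 1 (by omega) (by omega); push_cast at this; exact this)
      (by have := red_ne p c (2 * l) 2 (by omega) (by omega); push_cast at this; exact this)
    have rb := Pool.Agent.Q164.E8.rt p (p * c + (2 * l + 1)) (by omega)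
      (by have := red_ne p c (2 * l + 1) 1 (by omega) (by omega); push_cast at this; exact this)
      (by have := red_ne p c (2 * l + 1) 2 (by omega) (by omega); push_cast at this; exact this)
    have e1 : (p : R p) * c + (2 * ((l + 1 : ℕ) : R p) + 1) = p * c + (2 * l + 1) + 2 := by push_cast; ring
    have e2 : (p : R p) * c + 2 * ((l + 1 : ℕ) : R p) = p * c + 2 * l + 2 := by push_cast; ring
    rw [e1, e2]
    set a := T2 p (p * c + 2 * l)
    set b := T2 p (p * c + (2 * l + 1))
    set a' := T2 p (p * c + 2 * l + 2)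
    set b' := T2 p (p * c + (2 * l + 1) + 2)
    have hu : IsUnit (2 * (l : R p) + 3) := by
      have := isUnit_nat p (2 * l + 3) (by omega) (by omega)
      push_cast at this
      exact this
    have h1 : (p : R p) * b' = 0 := by
      apply hu.mul_left_cancel
      linear_combination (p : R p) * rb - c * b' * hP - 4 * (p * c + (2 * l + 1) + 1) * ih1
    refine ⟨h1, ?_⟩
    push_cast
    linear_combination a' * rb - c * a' * h1 - 4 * c * a' * ih1 + (-4 * b) * ra + 4 * c * a' * ih1 +
      (4 * c * 4 * a) * ih1 + 16 * ih2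

end Pool.Agent.U295.SP
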