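import Mathlib

set_option autoImplicit false
set_option linter.unusedVariables false

/-!
# Linear algebra over a ring with `P² = 0`, `r² = 2`
-/

namespace Pool.Agent.U295.SP

theorem half0 {S : Type} [CommRing S] (g : S) (hg : 2 * g = 1) {x : S} (h : 2 * x = 0) : x = 0 := by
  linear_combination g * h - x * hg

/-- the case `p ≡ 3` modulo `8` -/
theorem alg3 {S : Type} [CommRing S] (r g P v al a A B w G G1 s tKr : S) (hP : P ^ 2 = 0) (hr : r ^ 2 = 2)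
    (hg : 2 * g = 1) (h1 : w * w = -((1 - r) ^ 2 * (1 + P * v)))
    (ha : a + w ^ 2 * (-(1 + r) ^ 2 * a) = 2 * w * r * G)
    (h3 : A + w ^ 2 * ((1 - r) ^ 2 * B - (P - 1) * (1 - r) * (-(1 + r) ^ 2 * a)) =
      w * ((P - 1) * G + 2 * (r - 1) * G1))
    (h4 : 4 * G1 * G = -P - 2 * P * G ^ 2) (h5 : P * G1 = 0)
    (hs : 2 * s = (1 + P * al) * (-(1 + r) ^ 2 * a + -(1 + r) ^ 2 * (1 - P * v) * a))
    (htKr : 4 * tKr = -((1 + P * al) * ((P - 1) * r * (-(1 + r) ^ 2 * a + -(1 + r) ^ 2 * (1 - P * v) * a) +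
      2 * (B + -(1 + r) ^ 2 * (1 - P * v) * ((1 + r) ^ 2 * A - (P - 1) * (1 + r) * a)))))
    (hII : (P * (-(2 * (1 + 2 * P * al) * ((1 + r) * (1 - P * v)))) -
      P * (((1 + r) * (1 - P * v)) ^ 2 * (1 + r) ^ 2) * (-2 * (1 - r))) * (-(1 + r) ^ 2 * a) +
      (1 + (-(2 * (1 + 2 * P * al) * ((1 + r) * (1 - P * v)))) + ((1 + r) * (1 - P * v)) ^ 2) * B =
      -2 * P * (-(2 * (1 + 2 * P * al) * ((1 + r) * (1 - P * v)))) * (-(1 + r) ^ 2 * (1 - P * v) * a) +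
      2 * (1 - (-(2 * (1 + 2 * P * al) * ((1 + r) * (1 - P * v))))) *
        (-(1 + r) ^ 2 * (1 - P * v) * ((1 + r) ^ 2 * A - (P - 1) * (1 + r) * a)) +
      2 * P * (-(2 * (1 + 2 * P * al) * ((1 + r) * (1 - P * v)))) * s +
      2 * (-(2 * (1 + 2 * P * al) * ((1 + r) * (1 - P * v)))) * tKr) :
    (A + B) * (-(1 + r) * a) = ((1 + r) * a) ^ 2 + 5 * P := by
  have hL0 : -4 * r * (B - ((1 + r) ^ 6 * A + 2 * (1 + r) ^ 4 * a)) + P * (-744*r*v*A - 266*r*v*a + 812*r*al*A - 20*r*al*B + 252*r*al*a - 1052*v*A - 4*v*B - 376*v*a + 1148*al*A - 20*al*B + 356*al*a) = 0 := by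
    linear_combination (2) * hII + (8*P^3*r*v*al + 8*P^3*v*al + 4*P^2*r*v - 8*P^2*r*al + 4*P^2*v - 8*P^2*al - 4*P*r - 4*P) * hs + (4*P^2*r*v*al + 4*P^2*v*al + 2*P*r*v - 4*P*r*al + 2*P*v - 4*P*al - 2*r - 2) * htKr + (4*P^3*r^4*v^2*al^2*a + 28*P^3*r^3*v^2*al^2*a + 60*P^3*r^2*v^2*al^2*a + 52*P^3*r*v^2*al^2*a + 16*P^3*v^2*al^2*a - 8*P^2*r^5*v^2*al^2*A - 40*P^2*r^4*v^2*al^2*A - 4*P^2*r^4*v^2*al^2*a + 22*P^2*r^4*v^2*al*a - 4*P^2*r^4*v*al^2*a - 80*P^2*r^3*v^2*al^2*A - 20*P^2*r^3*v^2*al^2*a + 90*P^2*r^3*v^2*al*a - 52*P^2*r^3*v*al^2*a - 80*P^2*r^2*v^2*al^2*A - 36*P^2*r^2*v^2*al^2*a + 138*P^2*r^2*v^2*al*a - 132*P^2*r^2*v*al^2*a - 40*P^2*r*v^2*al^2*A - 28*P^2*r*v^2*al^2*a + 94*P^2*r*v^2*al*a - 124*P^2*r*v*al^2*a - 8*P^2*v^2*al^2*A - 8*P^2*v^2*al^2*a + 24*P^2*v^2*al*a - 40*P^2*v*al^2*a - 4*P*r^7*v^2*a -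 20*P*r^6*v^2*a - 28*P*r^5*v^2*al*A - 36*P*r^5*v^2*a + 16*P*r^5*v*al^2*A - 140*P*r^4*v^2*al*A - 22*P*r^4*v^2*al*a - 10*P*r^4*v^2*a + 80*P*r^4*v*al^2*A + 4*P*r^4*v*al^2*a - 38*P*r^4*v*al*a - 280*P*r^3*v^2*al*A - 94*P*r^3*v^2*al*a + 58*P*r^3*v^2*a + 160*P*r^3*v*al^2*A + 28*P*r^3*v*al^2*a - 166*P*r^3*v*al*a + 24*P*r^3*al^2*a - 280*P*r^2*v^2*al*A - 150*P*r^2*v^2*al*a + 90*P*r^2*v^2*a + 160*P*r^2*v*al^2*A + 60*P*r^2*v*al^2*a - 270*P*r^2*v*al*a + 72*P*r^2*al^2*a - 140*P*r*v^2*al*A - 106*P*r*v^2*al*a + 54*P*r*v^2*a + 80*P*r*v*al^2*A - 8*P*r*v*al^2*B + 52*P*r*v*al^2*a - 194*P*r*v*al*a + 72*P*r*al^2*a - 28*P*v^2*al*A - 28*P*v^2*al*a + 12*P*v^2*a + 16*P*v*al^2*A - 8*P*v*al^2*B + 16*P*v*al^2*a - 52*P*v*al*a + 24*P*al^2*a + 8*r^7*v*a + 40*r^6*v*a - 12*r^5*v^2*A + 56*r^5*v*al*A + 72*r^5*v*a - 8*r^5*al^2*A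 - 60*r^4*v^2*A - 10*r^4*v^2*a + 280*r^4*v*al*A + 38*r^4*v*al*a + 22*r^4*v*a - 40*r^4*al^2*A + 16*r^4*al*a - 120*r^3*v^2*A - 42*r^3*v^2*a + 560*r^3*v*al*A + 170*r^3*v*al*a - 114*r^3*v*a - 80*r^3*al^2*A - 8*r^3*al^2*a + 76*r^3*al*a - 120*r^2*v^2*A - 2*r^2*v^2*B - 66*r^2*v^2*a + 560*r^2*v*al*A + 282*r^2*v*al*a - 186*r^2*v*a - 80*r^2*al^2*A - 24*r^2*al^2*a + 132*r^2*al*a - 60*r*v^2*A - 4*r*v^2*B - 46*r*v^2*a + 280*r*v*al*A - 20*r*v*al*B + 206*r*v*al*a - 118*r*v*a - 40*r*al^2*A + 8*r*al^2*B - 24*r*al^2*a + 100*r*al*a - 12*v^2*A - 2*v^2*B - 12*v^2*a + 56*v*al*A - 20*v*al*B + 56*v*al*a - 28*v*a - 8*al^2*A + 8*al^2*B - 8*al^2*a + 28*al*a) * hP + (-4*P*r^5*a - 20*P*r^4*a + 24*P*r^3*v*A - 28*P*r^3*al*A - 44*P*r^3*a + 124*P*r^2*v*A + 18*P*r^2*v*a - 140*P*r^2*al*A - 16*P*r^2*al*a - 52*P*r^2*a + 304*P*r*v*A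 + 82*P*r*v*a - 336*P*r*al*A - 76*P*r*al*a - 32*P*r*a + 512*P*v*A + 4*P*v*B + 174*P*v*a - 560*P*al*A - 164*P*al*a - 8*P*a + 4*r^5*A + 24*r^4*A + 56*r^3*A + 8*r^3*a + 64*r^2*A + 24*r^2*a + 36*r*A + 24*r*a + 8*A - 2*B + 8*a) * hr
  have hX8 : 8 * (P * (B - ((1 + r) ^ 6 * A + 2 * (1 + r) ^ 4 * a))) = 0 := by
    linear_combination (-P*r) * hL0 + (-744*r^2*v*A - 266*r^2*v*a + 812*r^2*al*A - 20*r^2*al*B + 252*r^2*al*a - 1052*r*v*A - 4*r*v*B - 376*r*v*a + 1148*r*al*A - 20*r*al*B + 356*r*al*a) * hP + (4*P*r^6*A + 24*P*r^5*A + 60*P*r^4*A + 8*P*r^4*a + 80*P*r^3*A + 32*P*r^3*a + 60*P*r^2*A + 48*P*r^2*a + 24*P*r*A + 32*P*r*a + 4*P*A - 4*P*B + 8*P*a) * hr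
  have hX : P * (B - ((1 + r) ^ 6 * A + 2 * (1 + r) ^ 4 * a)) = 0 := half0 g hg (half0 g hg (half0 g hg (by linear_combination hX8)))
  have hT22 : 2 * (P * (2 * A - 2 * (1 - r) ^ 4 * B + (2 * (1 - r) + r) * a)) = 0 := by
    linear_combination (4*P) * h3 + (4*P^2*r^3*a + 4*P^2*r^2*a - 4*P^2*r*a - 4*P^2*a - 3*P*r^3*a - 4*P*r^2*B - 2*P*r^2*a + 8*P*r*B + 5*P*r*a - 4*P*B + 4*P*a) * h1 + (8*r*w - 8*w) * h5 + (P*r) * ha + (-4*P*r^5*v*a + 4*P*r^4*v*a + 8*P*r^3*v*a - 8*P*r^2*v*a - 4*P*r*v*a + 4*P*v*a + 3*r^5*v*a - 4*r^5*a + 4*r^4*v*B - 4*r^4*v*a + 4*r^4*a - 16*r^3*v*B - 6*r^3*v*a + 8*r^3*a + 24*r^2*v*B + 8*r^2*v*a - 8*r^2*a - 16*r*v*B + 3*r*v*a - 4*r*a + 4*v*B - 4*v*a + 4*a + 4*w*G) * hP + (3*P*r^3*a - 4*P*r^2*a + 2*P*w*G) * hr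
  have hT2 := half0 g hg hT22
  have hA : P * (4 * A + r * a) = 0 := by
    linear_combination (-r + 1) * hT2 + (-2*r^5 + 10*r^4 - 20*r^3 + 20*r^2 - 10*r + 2) * hX + (0) * hP + (-2*P*r^9*A - 2*P*r^8*A + 6*P*r^7*A - 4*P*r^7*a + 6*P*r^6*A + 4*P*r^6*a - 8*P*r^5*A + 8*P*r^5*a - 8*P*r^4*A - 8*P*r^4*a + 4*P*r^3*A - 8*P*r^3*a + 4*P*r^2*A + 8*P*r^2*a - 2*P*r*A - 2*P*A - P*a) * hr
  have h6 : P * (4 * B + r * (1 + r) ^ 2 * a) = 0 := by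
    linear_combination (4) * hX + (r^6 + 6*r^5 + 15*r^4 + 20*r^3 + 15*r^2 + 6*r + 1) * hA + (0) * hP + (-P*r^5*a - 6*P*r^4*a - 17*P*r^3*a - 24*P*r^2*a - 16*P*r*a - 4*P*a) * hr
  have hX0 : 16 * r * (B - ((1 + r) ^ 6 * A + 2 * (1 + r) ^ 4 * a)) = 0 := by
    linear_combination (-4) * hL0 + (-80*r*al - 16*v - 80*al) * hX + (-1024*r*v - 2568*r*al - 1448*v - 3632*al) * hA + (0) * hP + (-80*P*r^5*al*A - 16*P*r^4*v*A - 560*P*r^4*al*A - 96*P*r^3*v*A - 1840*P*r^3*al*A - 160*P*r^3*al*a - 272*P*r^2*v*A - 32*P*r^2*v*a - 3920*P*r^2*al*A - 800*P*r^2*al*a - 512*P*r*v*A - 128*P*r*v*a - 6480*P*r*al*A - 1920*P*r*al*a - 784*P*v*A + 768*P*v*a - 9520*P*al*A - 632*P*al*a) * hr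
  have hX32 : 32 * (B - ((1 + r) ^ 6 * A + 2 * (1 + r) ^ 4 * a)) = 0 := by
    linear_combination (r) * hX0 + (0) * hP + (16*r^6*A + 96*r^5*A + 240*r^4*A + 32*r^4*a + 320*r^3*A + 128*r^3*a + 240*r^2*A + 192*r^2*a + 96*r*A + 128*r*a + 16*A - 16*B + 32*a) * hr
  have hXX : (B - ((1 + r) ^ 6 * A + 2 * (1 + r) ^ 4 * a)) = 0 := half0 g hg (half0 g hg (half0 g hg (half0 g hg (half0 g hg (by linear_combination hX32)))))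
  have hc : r * a * (2 + P * v) - 4 * w * G = 0 := by
    linear_combination (r) * ha + (r^3*a + 2*r^2*a + r*a) * h1 + (0) * hP + (-P*r^3*v*a - r^3*a + 2*w*G) * hr
  have hd1 : 2 * r * a * w * G1 - 4 * w ^ 2 * G * G1 = 0 := by
    linear_combination (w*G1) * hc + (-r*v*a*w) * h5 + (0) * hP + (0) * hr
  have hd2 : 8 * P * a ^ 2 + 16 * (1 - r) ^ 2 * P * G ^ 2 = 0 := by
    linear_combination (P^2*r*v*a + 2*P*r*a + 4*P*w*G) * hc + (16*P*G^2) * h1 + (-P*r^2*v^2*a^2 - 4*r^2*v*a^2 - 16*r^2*v*G^2 + 32*r*v*G^2 - 16*v*G^2) * hP + (-4*P*a^2) * hr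
  have hd8 : 8 * (4 * a * w * G1 - r * P * ((1 - r) ^ 2 - a ^ 2)) = 0 := by
    linear_combination (8*r) * hd1 + (32*r*G*G1) * h1 + (-32*r^3*v*G + 64*r^2*v*G - 32*r*v*G) * h5 + (-8*r^3 + 16*r^2 - 8*r) * h4 + (r) * hd2 + (0) * hP + (-16*a*w*G1) * hr
  have hd := half0 g hg (x := 4 * a * w * G1 - r * P * ((1 - r) ^ 2 - a ^ 2)) (half0 g hg (half0 g hg (by linear_combination hd8)))
  have hF42 : 2 * (a * (2 * A - 2 * (1 - r) ^ 4 * B + (2 * (1 - r) + r) * a) + P * r * (1 - r) ^ 3) = 0 := by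
    linear_combination (4*a) * h3 + (4*P*r^3*a^2 + 4*P*r^2*a^2 - 4*P*r*a^2 - 4*P*a^2 - 4*r^3*a^2 - 4*r^2*B*a - 4*r^2*a^2 + 8*r*B*a + 4*r*a^2 - 4*B*a + 4*a^2) * h1 + (-P*a + a) * hc + (2*r - 2) * hd + (r^4*v*a - 4*r^3*v*a + 6*r^2*v*a - 4*r*v*a + v*a) * h6 + (-4*r^5*v*a^2 + 4*r^4*v*a^2 + 8*r^3*v*a^2 - 8*r^2*v*a^2 - 3*r*v*a^2 + 4*v*a^2) * hP + (-P*r^5*v*a^2 + 2*P*r^4*v*a^2 + 3*P*r^3*v*a^2 - 4*P*r^3*a^2 - 4*P*r^2*v*a^2 + 4*P*r^2*a^2 - P*r*v*a^2 + 2*P*v*a^2 - 2*P*a^2 + 4*r^3*a^2 - 4*r^2*a^2) * hr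
  have hF4 := half0 g hg hF42
  have hFT : 4 * ((A + B) * (-(1 + r) * a) - (((1 + r) * a) ^ 2 + 5 * P)) = 0 := by
    linear_combination (2*r^10*a + 4*r^9*a - 6*r^8*a - 16*r^7*a + 4*r^6*a + 24*r^5*a + 6*r^4*a - 24*r^3*a + 6*r^2*a - 8*r*a) * hXX + (r^6 + 6*r^5 + 15*r^4 + 20*r^3 + 15*r^2 + 6*r + 2) * hF4 + (0) * hP + (P*r^8 + 3*P*r^7 + 2*P*r^6 - 2*P*r^5 - 2*P*r^4 + 2*P*r^3 + 5*P*r^2 + P*r + 10*P + 2*r^14*A*a + 16*r^13*A*a + 52*r^12*A*a + 4*r^12*a^2 + 80*r^11*A*a + 24*r^11*a^2 + 32*r^10*A*a + 52*r^10*a^2 - 80*r^9*A*a + 32*r^9*a^2 - 110*r^8*A*a - 52*r^8*a^2 + 20*r^7*A*a - 88*r^7*a^2 + 170*r^6*A*a + 8*r^6*a^2 + 196*r^5*A*a + 113*r^5*a^2 + 138*r^4*A*a + 112*r^4*a^2 + 80*r^3*A*a + 69*r^3*a^2 + 38*r^2*A*a + 42*r^2*a^2 + 12*r*A*a + 17*r*a^2 + 4*A*a + 4*a^2) * hr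
  have hfin := half0 g hg (x := (A + B) * (-(1 + r) * a) - (((1 + r) * a) ^ 2 + 5 * P)) (half0 g hg (by linear_combination hFT))
  linear_combination hfin

/-- the case `p ≡ 1` modulo `8` -/
theorem alg1 {S : Type} [CommRing S] (r g P eta al a A B s tKr : S) (hP : P ^ 2 = 0) (hr : r ^ 2 = 2)
    (hg : 2 * g = 1)
    (h3 : P * (2 * A + 2 * (1 - r) ^ 2 * B + 2 * (1 - r) * a + r * a) = 0)
    (hs : 2 * s = (1 + P * al) * (a + (1 + P * eta) * a))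
    (htKr : 4 * tKr = -((1 + P * al) * ((P - 1) * r * (a + (1 + P * eta) * a) +
      2 * (B + (1 + P * eta) * ((1 + r) ^ 2 * A - (P - 1) * (1 + r) * a)))))
    (hII : (P * (-(2 * (1 + 2 * P * al) * ((1 - r) * (1 + P * eta)))) -
      P * (1 + P * eta) ^ 2 * (-2 * (1 - r))) * a +
      (1 + (-(2 * (1 + 2 * P * al) * ((1 - r) * (1 + P * eta)))) + ((1 - r) * (1 + P * eta)) ^ 2) * B =
      -2 * P * (-(2 * (1 + 2 * P * al) * ((1 - r) * (1 + P * eta)))) * ((1 + P * eta) * a) +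
      2 * (1 - (-(2 * (1 + 2 * P * al) * ((1 - r) * (1 + P * eta))))) *
        ((1 + P * eta) * ((1 + r) ^ 2 * A - (P - 1) * (1 + r) * a)) +
      2 * P * (-(2 * (1 + 2 * P * al) * ((1 - r) * (1 + P * eta)))) * s +
      2 * (-(2 * (1 + 2 * P * al) * ((1 - r) * (1 + P * eta)))) * tKr) :
    A + B = 0 := by
  have hL0 : 4 * r * (A + B) + P * (28*r*al*A + 20*r*al*B + 12*r*al*a + 16*r*A*eta + 2*r*a*eta + 28*al*A - 20*al*B + 4*al*a + 12*A*eta + 4*B*eta + 8*a*eta) = 0 := by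
    linear_combination (2) * hII + (8*P^3*r*al*eta - 8*P^3*al*eta + 8*P^2*r*al + 4*P^2*r*eta - 8*P^2*al - 4*P^2*eta + 4*P*r - 4*P) * hs + (4*P^2*r*al*eta - 4*P^2*al*eta + 4*P*r*al + 2*P*r*eta - 4*P*al - 2*P*eta + 2*r - 2) * htKr + (4*P^3*r^2*al^2*a*eta^2 + 12*P^3*r*al^2*a*eta^2 - 16*P^3*al^2*a*eta^2 - 8*P^2*r^3*al^2*A*eta^2 - 8*P^2*r^2*al^2*A*eta^2 - 4*P^2*r^2*al^2*a*eta^2 + 4*P^2*r^2*al^2*a*eta + 22*P^2*r^2*al*a*eta^2 + 8*P^2*r*al^2*A*eta^2 - 4*P^2*r*al^2*a*eta^2 + 36*P^2*r*al^2*a*eta + 2*P^2*r*al*a*eta^2 + 8*P^2*al^2*A*eta^2 + 8*P^2*al^2*a*eta^2 - 40*P^2*al^2*a*eta - 24*P^2*al*a*eta^2 - 16*P*r^3*al^2*A*eta - 28*P*r^3*al*A*eta^2 - 16*P*r^2*al^2*A*eta - 4*P*r^2*al^2*a*eta - 28*P*r^2*al*A*eta^2 - 22*P*r^2*al*a*eta^2 + 38*P*r^2*al*a*eta + 10*P*r^2*a*eta^2 + 16*P*r*al^2*A*eta - 8*P*r*al^2*B*eta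 - 12*P*r*al^2*a*eta + 24*P*r*al^2*a + 28*P*r*al*A*eta^2 - 6*P*r*al*a*eta^2 + 14*P*r*al*a*eta + 2*P*r*a*eta^2 + 16*P*al^2*A*eta + 8*P*al^2*B*eta + 16*P*al^2*a*eta - 24*P*al^2*a + 28*P*al*A*eta^2 + 28*P*al*a*eta^2 - 52*P*al*a*eta - 12*P*a*eta^2 - 8*r^3*al^2*A - 56*r^3*al*A*eta - 12*r^3*A*eta^2 - 8*r^2*al^2*A - 56*r^2*al*A*eta - 38*r^2*al*a*eta + 16*r^2*al*a - 12*r^2*A*eta^2 - 2*r^2*B*eta^2 - 10*r^2*a*eta^2 + 18*r^2*a*eta + 8*r*al^2*A - 8*r*al^2*B - 8*r*al^2*a + 56*r*al*A*eta - 20*r*al*B*eta - 18*r*al*a*eta + 12*r*al*a + 12*r*A*eta^2 + 4*r*B*eta^2 - 2*r*a*eta^2 + 2*r*a*eta + 8*al^2*A + 8*al^2*B + 8*al^2*a + 56*al*A*eta + 20*al*B*eta + 56*al*a*eta - 28*al*a + 12*A*eta^2 - 2*B*eta^2 + 12*a*eta^2 - 28*a*eta) * hP + (-28*P*r*al*A - 24*P*r*A*eta - 28*P*al*A - 16*P*al*a - 20*P*A*eta - 4*P*B*eta - 18*P*a*eta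 + 8*P*a - 12*r*A - 8*A - 2*B - 8*a) * hr
  have hX8 : 8 * (P * (A + B)) = 0 := by
    linear_combination (P*r) * hL0 + (-28*r^2*al*A - 20*r^2*al*B - 12*r^2*al*a - 16*r^2*A*eta - 2*r^2*a*eta - 28*r*al*A + 20*r*al*B - 4*r*al*a - 12*r*A*eta - 4*r*B*eta - 8*r*a*eta) * hP + (-4*P*A - 4*P*B) * hr
  have hX : P * (A + B) = 0 := half0 g hg (half0 g hg (half0 g hg (by linear_combination hX8)))
  have hA : P * (4 * A + r * a) = 0 := by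
    linear_combination (r + 1) * h3 + (-2*r^3 + 2*r^2 + 2*r - 2) * hX + (0) * hP + (2*P*r*A - 2*P*A + P*a) * hr
  have h16 : 16 * r * (A + B) = 0 := by
    linear_combination (4) * hL0 + (-80*r*al + 80*al - 16*eta) * hX + (-8*r*al - 16*r*eta - 48*al - 8*eta) * hA + (0) * hP + (8*P*al*a + 16*P*a*eta) * hr
  have h32 : 32 * (A + B) = 0 := by
    linear_combination (r) * h16 + (0) * hP + (-16*A - 16*B) * hr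
  have hfin : A + B = 0 := half0 g hg (half0 g hg (half0 g hg (half0 g hg (half0 g hg (by linear_combination h32)))))
  exact hfin

/-- the case `p ≡ 1` modulo `8`: the two values agree -/
theorem alg1b {S : Type} [CommRing S] (r g P eta al a b s : S) (hP : P ^ 2 = 0) (hr : r ^ 2 = 2)
    (hg : 2 * g = 1)
    (hs : 2 * s = (1 + P * al) * (b + (1 + P * eta) * a))
    (hE : (1 + (-(2 * (1 + 2 * P * al) * ((1 - r) * (1 + P * eta)))) + ((1 - r) * (1 + P * eta)) ^ 2) * b =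
      2 * (1 - (-(2 * (1 + 2 * P * al) * ((1 - r) * (1 + P * eta))))) * ((1 + P * eta) * a) +
      2 * (-(2 * (1 + 2 * P * al) * ((1 - r) * (1 + P * eta)))) * s) : b = a := by
  have h0 : (4 - 2 * r + P * (-2*r*al - 4*r*eta + 2*al + 6*eta)) * (b - a) = 0 := by
    linear_combination (1) * hE + (4*P^2*r*al*eta - 4*P^2*al*eta + 4*P*r*al + 2*P*r*eta - 4*P*al - 2*P*eta + 2*r - 2) * hs + (4*P^2*r*al^2*a*eta^2 - 4*P^2*al^2*a*eta^2 + 8*P*r*al^2*a*eta + 4*P*r*al^2*b*eta - 2*P*r*al*a*eta^2 - 8*P*al^2*a*eta - 4*P*al^2*b*eta + 2*P*al*a*eta^2 - r^2*b*eta^2 + 4*r*al^2*a + 4*r*al^2*b - 4*r*al*a*eta + 2*r*al*b*eta - 2*r*a*eta^2 + 2*r*b*eta^2 - 4*al^2*a - 4*al^2*b + 4*al*a*eta - 2*al*b*eta + 2*a*eta^2 - b*eta^2) * hP + (-2*P*b*eta - b) * hr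
  have h64 : 64 * (b - a) = 0 := by
    linear_combination (8*P*r^3*al + 16*P*r^3*eta + 24*P*r^2*al + 40*P*r^2*eta - 32*P*r*eta - 32*P*al - 96*P*eta + 16*r + 32) * h0 + (-16*r^4*al^2*a + 16*r^4*al^2*b - 64*r^4*al*a*eta + 64*r^4*al*b*eta - 64*r^4*a*eta^2 + 64*r^4*b*eta^2 - 32*r^3*al^2*a + 32*r^3*al^2*b - 96*r^3*al*a*eta + 96*r^3*al*b*eta - 64*r^3*a*eta^2 + 64*r^3*b*eta^2 + 48*r^2*al^2*a - 48*r^2*al^2*b + 288*r^2*al*a*eta - 288*r^2*al*b*eta + 368*r^2*a*eta^2 - 368*r^2*b*eta^2 + 64*r*al^2*a - 64*r*al^2*b + 256*r*al*a*eta - 256*r*al*b*eta + 192*r*a*eta^2 - 192*r*b*eta^2 - 64*al^2*a + 64*al^2*b - 384*al*a*eta + 384*al*b*eta - 576*a*eta^2 + 576*b*eta^2) * hP + (-16*P*r^2*al*a + 16*P*r^2*al*b - 32*P*r^2*a*eta + 32*P*r^2*b*eta - 16*P*r*al*a + 16*P*r*al*b - 16*P*r*a*eta + 16*P*r*b*eta + 32*P*al*a - 32*P*al*b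 + 96*P*a*eta - 96*P*b*eta - 32*a + 32*b) * hr
  exact sub_eq_zero.1 (half0 g hg (half0 g hg (half0 g hg (half0 g hg (half0 g hg (half0 g hg (by linear_combination h64)))))))

end Pool.Agent.U295.SP
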