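import Pool.Agent.U295.SP.B

set_option autoImplicit false

/-!
# The derivative sum modulo `p` in case 1
-/

namespace Pool.Agent.U295.SP

open Finset Pool.Agent.Q267.CDE Pool.Agent.Q267.MW Pool.Agent.Q267.E8

theorem p_bR (p : ℕ) [hp : Fact p.Prime] (x y : R p) (h : red p x = red p y) (k : ℕ) :
    (p : R p) * bR p x k = p * bR p y k := by
  unfold bR
  rw [← mul_assoc, ← mul_assoc]
  congr 1
  apply p_mul_eq
  rw [map_prod, map_prod]
  refine prod_congr rfl fun i _ => ?_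
  rw [map_sub, map_sub, h]

theorem refl_sum (q : ℕ) : ∑ k ∈ range (2 * q + 1), (-1 : ℤ) ^ k * (2 * k - (2 * q : ℕ)) * ((2 * q).choose k : ℤ) ^ 2 = 0 := by
  have h1 := sum_range_reflect (fun k => (-1 : ℤ) ^ k * (2 * k - (2 * q : ℕ)) * ((2 * q).choose k : ℤ) ^ 2) (2 * q + 1)
  have h2 : ∑ j ∈ range (2 * q + 1), (-1 : ℤ) ^ (2 * q + 1 - 1 - j) * (2 * ((2 * q + 1 - 1 - j : ℕ) : ℤ) - (2 * q : ℕ)) *
      ((2 * q).choose (2 * q + 1 - 1 - j) : ℤ) ^ 2 =
      -∑ k ∈ range (2 * q + 1), (-1 : ℤ) ^ k * (2 * k - (2 * q : ℕ)) * ((2 * q).choose k : ℤ) ^ 2 := by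
    rw [← sum_neg_distrib]
    refine sum_congr rfl fun k hk => ?_
    rw [mem_range] at hk
    have e1 : 2 * q + 1 - 1 - k = 2 * q - k := by omega
    rw [e1, Nat.choose_symm (by omega), Nat.cast_sub (by omega)]
    have e2 : (-1 : ℤ) ^ (2 * q - k) = (-1) ^ k := by
      have h3 : (-1 : ℤ) ^ (2 * q - k) * (-1) ^ k = 1 := by
        rw [← pow_add, show 2 * q - k + k = 2 * q by omega, pow_mul]
        norm_num
      rcases neg_one_pow_eq_or ℤ k with h4 | h4 <;> rw [h4] at h3 ⊢ <;> linarith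
    rw [e2]
    push_cast
    ring
  have h3 : -∑ k ∈ range (2 * q + 1), (-1 : ℤ) ^ k * (2 * k - (2 * q : ℕ)) * ((2 * q).choose k : ℤ) ^ 2 =
      ∑ k ∈ range (2 * q + 1), (-1 : ℤ) ^ k * (2 * k - (2 * q : ℕ)) * ((2 * q).choose k : ℤ) ^ 2 := by
    rw [← h2]
    exact h1
  linarith

theorem G1_case1 (p q : ℕ) [hp : Fact p.Prime] (hpq : p = 8 * q + 1) (h : R p) (hh : 2 * h = 1) (hq : 0 < q) :
    p * (∑ j ∈ range (2 * q + 1), 2 * j * cf p (2 * (2 * q)) (2 * q) j h) = 0 := by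
  obtain ⟨n, hn⟩ : ∃ n, 2 * q = n + 1 := ⟨2 * q - 1, by omega⟩
  have hpR : (p : R p) = 4 * ((n : R p) + 1) + 1 := by
    have h1 : p = 4 * (n + 1) + 1 := by omega
    have := congrArg (Nat.cast : ℕ → R p) h1
    push_cast at this
    exact this
  have hpe := Pool.Agent.Q181.E8.pe p (n + 1) h hh (by omega)
  have hpo := Pool.Agent.Q299.E8.po p n h hh (by omega)
  have hev := refl_sum q
  rw [hn] at hev ⊢
  rw [G1_even p n h]
  have hGe : ∑ j ∈ range (n + 1 + 1), cf p (2 * (n + 1)) (n + 1) j h = ∑ j ∈ range (n + 1 + 1),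
      (((2 * (n + 1)).choose (2 * j) : ℕ) : R p) * ((j.centralBinom : ℕ) : R p) * (h ^ 2) ^ j * 2 ^ (n + 1 - j) := rfl
  have hGo : ∑ j ∈ range (n + 1), cf p (2 * n + 1) n j h = ∑ j ∈ range (n + 1),
      (((2 * n + 1).choose (2 * j) : ℕ) : R p) * ((j.centralBinom : ℕ) : R p) * (h ^ 2) ^ j * 2 ^ (n - j) := rfl
  rw [hGe, hGo, hpe, hpo]
  set y : R p := -((n + 1 : ℕ) : R p) - h with hy
  have hy2 : -((n : ℕ) : R p) - 3 * h = y := by
    rw [hy]
    push_cast
    linear_combination -hh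
  rw [hy2]
  have hyn : red p y = red p ((n + 1 : ℕ) : R p) := by
    have h1 : y = ((n + 1 : ℕ) : R p) + p * (-h) := by
      rw [hy]
      push_cast
      linear_combination h * hpR + 2 * ((n : R p) + 1) * hh
    rw [h1, map_add, map_mul, red_nat p p, ZMod.natCast_self, zero_mul, add_zero]
  have hb : ∀ k, k < p → (p : R p) * bR p y k = p * (((n + 1).choose k : ℕ) : R p) := by
    intro k hk
    rw [p_bR p y _ hyn k, Pool.Agent.Q153.E8.choose_bR p (n + 1) k hk]
  -- the two sums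
  have s1 : (p : R p) * ∑ k ∈ range (n + 1 + 1), (-1) ^ k * (((n + 1).choose k : ℕ) : R p) * bR p y k =
      p * ∑ k ∈ range (n + 1 + 1), (-1) ^ k * (((n + 1).choose k : ℕ) : R p) * (((n + 1).choose k : ℕ) : R p) := by
    rw [mul_sum, mul_sum]
    refine sum_congr rfl fun k hk => ?_
    rw [mem_range] at hk
    linear_combination ((-1) ^ k * (((n + 1).choose k : ℕ) : R p)) * hb k (by omega)
  have s2 : (p : R p) * ∑ k ∈ range (n + 1), (-1) ^ k * ((n.choose k : ℕ) : R p) * bR p y k =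
      p * ∑ k ∈ range (n + 1 + 1), (-1) ^ k * ((n.choose k : ℕ) : R p) * (((n + 1).choose k : ℕ) : R p) := by
    rw [sum_range_succ _ (n + 1), Nat.choose_eq_zero_of_lt (show n < n + 1 by omega), mul_sum, Nat.cast_zero,
      mul_zero, zero_mul, add_zero, mul_sum]
    refine sum_congr rfl fun k hk => ?_
    rw [mem_range] at hk
    linear_combination ((-1) ^ k * ((n.choose k : ℕ) : R p)) * hb k (by omega)
  have s3 : ((n : R p) + 1) * (∑ k ∈ range (n + 1 + 1), (-1) ^ k * (((n + 1).choose k : ℕ) : R p) *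
      (((n + 1).choose k : ℕ) : R p) - 2 * ∑ k ∈ range (n + 1 + 1), (-1) ^ k * ((n.choose k : ℕ) : R p) *
      (((n + 1).choose k : ℕ) : R p)) = 0 := by
    have h1 := congrArg (Int.cast : ℤ → R p) hev
    push_cast at h1
    rw [← h1, mul_sum, ← sum_sub_distrib, mul_sum]
    refine sum_congr rfl fun k hk => ?_
    rw [mem_range] at hk
    have c1 : ((n : R p) + 1) * ((n.choose k : ℕ) : R p) = ((n : R p) + 1 - k) * (((n + 1).choose k : ℕ) : R p) := by
      have h2 := congrArg (Nat.cast : ℕ → R p) (Nat.choose_mul_succ_eq n k)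
      rw [Nat.cast_mul, Nat.cast_mul, Nat.cast_sub (by omega)] at h2
      push_cast at h2
      linear_combination h2
    push_cast
    linear_combination (-2 * (-1) ^ k * (((n + 1).choose k : ℕ) : R p)) * c1
  push_cast
  linear_combination (2 * (p : R p)) * s3 + (2 * ((n : R p) + 1)) * s1 - (4 * ((n : R p) + 1)) * s2

end Pool.Agent.U295.SP
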