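import Pool.Agent.U295.SP.W
import Pool.Agent.U295.SP.V
import Pool.Agent.U295.SP.C

set_option autoImplicit false

/-!
# The sum weighted by `k`: assembly
-/

namespace Pool.Agent.U295.SP

open Finset Pool.Agent.Q267.CDE Pool.Agent.Q267.MW Pool.Agent.Q267.E8

/-- the sum of Q2 -/
def S1 (p : ℕ) : ℚ := ∑ k ∈ range p, (k : ℚ) * (Qn k : ℚ) / (-8) ^ k * ((2 * k).choose k : ℚ) ^ 2

/-- the numerator -/
def num1 (p : ℕ) : ℤ := ∑ k ∈ range p, k * Qn k * ((-1) ^ k * 8 ^ (p - k) * ((k.centralBinom : ℕ) : ℤ) ^ 2)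

theorem S1_eq (p : ℕ) : S1 p = (num1 p : ℚ) / ((8 ^ p : ℕ) : ℚ) := by
  rw [eq_div_iff (by positivity)]
  unfold S1 num1
  rw [Finset.sum_mul]
  push_cast
  refine Finset.sum_congr rfl fun k hk => ?_
  have hk' : k ≤ p := (mem_range.1 hk).le
  have h1 : (8 : ℚ) ^ p = 8 ^ k * 8 ^ (p - k) := by rw [← pow_add]; congr 1; omega
  have h2 : (-8 : ℚ) ^ k = (-1) ^ k * 8 ^ k := by rw [← mul_pow]; norm_num
  have h3 : ((-1 : ℚ) ^ k) * (-1) ^ k = 1 := by rw [← mul_pow]; norm_num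
  rw [h1, h2, Nat.centralBinom]
  field_simp
  linear_combination (-((k : ℚ) * (Qn k : ℚ) * (((2 * k).choose k : ℕ) : ℚ) ^ 2)) * h3

theorem num1_eq (cb : S_CB) (p m : ℕ) [hp : Fact p.Prime] (S : Type) [CommRing S] [Algebra (R p) S] (r : S)
    (hpm : p = 2 * m + 1) (hr : r ^ 2 = 2) :
    ((num1 p : ℤ) : S) = (tF m (-2 * (1 + r)) + tF m (-2 * (1 - r))) * 8 ^ p := by
  unfold num1
  have h0 : range (m + 1) ⊆ range p := by
    intro k hk
    rw [mem_range] at hk ⊢
    omega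
  rw [Int.cast_sum, ← Finset.sum_subset h0]
  · unfold tF
    rw [← Finset.sum_add_distrib, Finset.sum_mul]
    refine Finset.sum_congr rfl fun k hk => ?_
    have hk' : k ≤ m := Nat.lt_succ_iff.1 (mem_range.1 hk)
    have h1 := congrArg (algebraMap (R p) S) ((cb p m k hpm).1 hk')
    simp only [map_mul, map_pow, map_natCast, map_neg, map_one, map_ofNat] at h1
    have h2 : (8 : S) ^ p = 8 ^ k * 8 ^ (p - k) := by rw [← pow_add]; congr 1; omega
    have h3 : ((-1 : S) ^ k) * (-1) ^ k = 1 := by rw [← mul_pow]; norm_num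
    have h4 : (16 : S) ^ k = 8 ^ k * 2 ^ k := by rw [← mul_pow]; norm_num
    have h5 : (-2 * (1 + r)) ^ k = (-1) ^ k * 2 ^ k * (1 + r) ^ k := by
      rw [← mul_pow, ← mul_pow]; norm_num
    have h6 : (-2 * (1 - r)) ^ k = (-1) ^ k * 2 ^ k * (1 - r) ^ k := by
      rw [← mul_pow, ← mul_pow]; norm_num
    push_cast
    rw [Pool.Agent.Q299.E8.qn_eq S r hr k, h1, h4, h5, h6, h2]
    ring
  · intro k hk hk'
    rw [mem_range] at hk hk'
    have h1 := congrArg (algebraMap (R p) S) ((cb p m k hpm).2 (by omega) hk)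
    simp only [map_pow, map_natCast, map_zero] at h1
    push_cast
    rw [h1]
    ring

theorem rs1 (p m : ℕ) [hp : Fact p.Prime] (S : Type) [CommRing S] [Algebra (R p) S] (r : S) (c : R p)
    (hpm : p = 2 * m + 1) (hr : r ^ 2 = 2) (hinj : Function.Injective (algebraMap (R p) S))
    (hc : algebraMap (R p) S c = tF m (-2 * (1 + r)) + tF m (-2 * (1 - r))) : IsRed p (S1 p) c := by
  refine ⟨num1 p, 8 ^ p, ?_, S1_eq p, ?_⟩
  · intro h
    have h1 : p ∣ 2 ^ 3 := by
      have := hp.out.dvd_of_dvd_pow h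
      norm_num at this ⊢
      exact this
    have h2 := hp.out.dvd_of_dvd_pow h1
    have h3 := Nat.le_of_dvd (by norm_num) h2
    have h4 := hp.out.two_le
    omega
  · apply hinj
    have h8 : algebraMap (R p) S ((8 ^ p : ℕ) : R p) = 8 ^ p := by
      rw [map_natCast]
      push_cast
      rfl
    rw [map_intCast, num1_eq Pool.Agent.Q182.E8.cb p m S r hpm hr, map_mul, hc, h8]

/-- Case 3 -/
theorem s1_case3 (p q : ℕ) [Fact p.Prime] (hq : 0 < q) (hpq : p = 8 * q + 3) :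
    ∃ c : R p, IsRed p (S1 p) c ∧
      c * ((-1) ^ (q + 1) * U p q (4 * q + 1)) = ((-1) ^ (q + 1) * U p q (4 * q + 1)) ^ 2 + 5 * p := by
  have hpf : p.Prime := Fact.out
  have hp2 : p ≠ 2 := by omega
  have hpm : p = 2 * (4 * q + 1) + 1 := by omega
  obtain ⟨S, _, _, K, _, _, ρ, r, hr, hinj, hker⟩ := Pool.Agent.Q205.E8.ax p q hpq
  obtain ⟨h, hh⟩ := exists_half p hp2
  obtain ⟨h', x, hh', hx⟩ := exists_x4 p hp2
  obtain ⟨Q, hQ⟩ := exists_Q p hp2
  have hpR : (p : R p) = 8 * q + 3 := by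
    have := congrArg (Nat.cast : ℕ → R p) hpq
    push_cast at this
    exact this
  have hxe : p * x + 2 * q = 3 * x := by
    apply four_cancel p hp2
    linear_combination ((p : R p) - 3) * hx - hpR
  have hT2 := T2_val (Pool.Agent.Q64.E8.c2 Pool.Agent.Q164.E8.rt) p q (4 * q + 1) hq hpm (by omega) le_rfl x hx Q hQ
  rw [hxe] at hT2
  have hPS : ∑ j ∈ range (2 * q + 1), (((2 * (2 * q) + 1).choose (2 * j) : ℕ) : R p) *
      ((j.centralBinom : ℕ) : R p) * (h ^ 2) ^ j * 2 ^ (2 * q - j) = T2 p (3 * x) := by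
    rw [Pool.Agent.Q299.E8.po p (2 * q) h hh (by omega)]
    apply Pool.Agent.Q153.E8.pg p (2 * q) (3 * x) (-((2 * q : ℕ) : R p) - 3 * h) (-x) (by omega)
    · push_cast
      linear_combination hxe
    · apply four_cancel p hp2
      push_cast
      linear_combination -(3 + (p : R p)) * hx - 6 * hh + hpR
  have hcf : ∑ j ∈ range (2 * q + 1), cf p (2 * (2 * q) + 1) (2 * q) j h = T2 p (3 * x) := hPS
  obtain ⟨hG1a, hG1b⟩ := G1_case3 p q hpq h x hh hx hxe hq hcf
  have hdE := dEVo p (2 * q) S r h hr hh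
  rw [hcf] at hdE
  obtain ⟨G1, hG1⟩ : ∃ G1 : R p, G1 = ∑ j ∈ range (2 * q + 1), 2 * j * cf p (2 * (2 * q) + 1) (2 * q) j h := ⟨_, rfl⟩
  rw [← hG1] at hG1a hG1b hdE
  rw [show 2 * (2 * q) + 1 = 4 * q + 1 by ring] at hdE
  have hhS : 2 * algebraMap (R p) S h = 1 := by
    have := congrArg (algebraMap (R p) S) hh
    rw [map_mul, map_one, map_ofNat] at this
    exact this
  have hE : Ef (4 * q + 1) ((1 + r) * algebraMap (R p) S h) = (1 + r) ^ (4 * q + 1) *
      (r * algebraMap (R p) S (T2 p (3 * x))) := by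
    have := Pool.Agent.Q176.E8.pv3 ev p (2 * q) S r h hr hh
    rw [hPS] at this
    have e4 : 2 * (2 * q) = 4 * q := by ring
    rw [e4] at this
    exact this
  have hKp := K1_plus k1 S (4 * q + 1) r hr
  have hKm := K1_minus k1 S (4 * q + 1) r hr
  have hdKp := dK1 (4 * q + 1) r hr
  have hdKm := dK1 (4 * q + 1) (-r) (by rw [neg_sq, hr])
  have hEKp := ek p (4 * q + 1) S (-2 * (1 + r)) ((1 + r) * algebraMap (R p) S h) hpm
    (by linear_combination -2 * (1 + r) * hhS)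
  have hEKm := ek p (4 * q + 1) S (-2 * (1 - r)) ((1 - r) * algebraMap (R p) S h) hpm
    (by linear_combination -2 * (1 - r) * hhS)
  have hdEKp := dEK p (4 * q + 1) S (-2 * (1 + r)) ((1 + r) * algebraMap (R p) S h) hpm
    (by linear_combination -2 * (1 + r) * hhS)
  have hdEKm := dEK p (4 * q + 1) S (-2 * (1 - r)) ((1 - r) * algebraMap (R p) S h) hpm
    (by linear_combination -2 * (1 - r) * hhS)
  have h1 : Ff (4 * q + 1) (-2 * (1 + r)) + (1 + r) ^ (2 * (4 * q + 1)) * Ff (4 * q + 1) (-2 * (1 - r)) =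
      2 * ((1 + r) ^ (4 * q + 1) * (r * algebraMap (R p) S (T2 p (3 * x)))) := by
    rw [← hKp, ← hEKp, hE]
  -- the Landen transformation
  have hLD := Pool.Agent.Q164.E8.ld S (4 * q + 1) (r - 1) (algebraMap (R p) S h)
    (by linear_combination algebraMap (R p) S h * hr + hhS)
  have hK2 := Pool.Agent.Q121.E8.k2 S (4 * q + 1) (-2 * (1 - r))
  have e5 : (1 : S) - -2 * (1 - r) = (r - 1) ^ 2 := by linear_combination -hr
  have hodd : ((-1 : S)) ^ (4 * q + 1) = -1 := by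
    rw [pow_succ, pow_mul]
    norm_num
  rw [e5, hodd] at hK2
  have e6 : (1 + (r - 1)) ^ (2 * (4 * q + 1)) = (2 : S) ^ (4 * q + 1) := by
    rw [pow_mul, show (1 + (r - 1)) ^ 2 = (2 : S) by linear_combination hr]
  rw [hK2, e6, show -((r - 1) * algebraMap (R p) S h) = (1 - r) * algebraMap (R p) S h by ring] at hLD
  have h2 : (2 : S) ^ (4 * q + 1) * (Ff (4 * q + 1) (-2 * (1 - r)) + Kf (4 * q + 1) (-2 * (1 - r))) =
      -2 * Kr (4 * q + 1) (-2 * (1 - r)) := by
    rw [← hEKm]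
    linear_combination -2 * hLD
  have hII := Pool.Agent.Q192.E8.ii Pool.Agent.Q265.E8.lg Pool.Agent.Q265.E8.lm Pool.Agent.Q153.E8.df
    p (4 * q + 1) S (-2 * (1 - r)) hpm (by omega)
  have hb := Pool.Agent.Q149.E8.ej p q S r (Ff (4 * q + 1) (-2 * (1 + r))) (Ff (4 * q + 1) (-2 * (1 - r)))
    (Kf (4 * q + 1) (-2 * (1 - r))) (Kr (4 * q + 1) (-2 * (1 - r))) Q hpq hr hQ hKm h2 hII
  have hsn := Pool.Agent.Q299.E8.sn3 p q K (ρ r) hpq (by rw [← map_pow, hr, map_ofNat])
  have hfin := Pool.Agent.Q149.E8.lf3 p q S K ρ r (Ff (4 * q + 1) (-2 * (1 + r)))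
    (Ff (4 * q + 1) (-2 * (1 - r))) (U p q (4 * q + 1)) (T2 p (3 * x)) Q hker hpq hr hQ h1 hb hT2
    (by simp only [map_mul, map_pow, map_add, map_one, map_ofNat]; exact hsn)
  -- the derivative relations
  have hdLD := dLD (4 * q + 1) r (algebraMap (R p) S h) hr hhS
  rw [hodd] at hdLD
  have hdII := dII p (4 * q + 1) S (-2 * (1 - r)) hpm (by omega)
  -- the constants
  have hP := Pool.Agent.Q149.E8.sqP p S
  have ht := Pool.Agent.Q149.E8.two_pow p q h Q hpq hh hQ
  have hT : (2 : S) ^ (4 * q + 1) = -(1 + (p : S) * algebraMap (R p) S (lift p Q) * algebraMap (R p) S h) := by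
    have h3 := congrArg (algebraMap (R p) S) ht
    rwa [map_pow, map_ofNat, map_neg, map_add, map_mul, map_mul, map_natCast, map_one] at h3
  have h2S : (2 : S) ^ (p - 1) = 1 + (p : S) * algebraMap (R p) S (lift p Q) := by
    have h3 := congrArg (algebraMap (R p) S) hQ
    rwa [map_pow, map_ofNat, map_add, map_mul, map_natCast, map_one] at h3
  have hPT : (2 * 16 ^ q : R p) * p = -p := by
    have h3 : (2 : R p) ^ (4 * q + 1) = 2 * 16 ^ q := by
      rw [pow_succ, pow_mul]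
      norm_num
      ring
    rw [← h3, ht]
    linear_combination (-lift p Q * h) * p_sq p
  rw [hPT] at hG1b
  obtain ⟨w0, hw0⟩ := exists_add_pow_prime_eq hpf (1 : S) (-r)
  have hoddp : Odd p := ⟨4 * q + 1, by omega⟩
  have hrp : r ^ p = r * 2 ^ (4 * q + 1) := by
    rw [hpq, show 8 * q + 3 = 2 * (4 * q + 1) + 1 by ring, pow_succ, pow_mul, hr]
    ring
  have hxx : (1 - r) ^ p = (1 + r) + (p : S) * (r * algebraMap (R p) S (lift p Q) * algebraMap (R p) S h - r * w0) := by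
    rw [sub_eq_add_neg, hw0, one_pow, hoddp.neg_pow, hrp, hT]
    ring
  set v0 : S := r * algebraMap (R p) S (lift p Q) * algebraMap (R p) S h - r * w0
  set al : S := algebraMap (R p) S (lift p Q) * algebraMap (R p) S h with hal
  have hal2 : algebraMap (R p) S (lift p Q) = 2 * al := by
    rw [hal]
    linear_combination -(algebraMap (R p) S (lift p Q)) * hhS
  obtain ⟨v, hv⟩ : ∃ v, v = v0 * (1 - r) := ⟨_, rfl⟩
  have hx1 : (1 - r) ^ p = (1 + r) * (1 - p * v) := by
    rw [hxx, hv]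
    linear_combination (-(p : S) * v0) * hr
  have hkk : (1 - r) ^ (2 * (4 * q + 1)) = -((1 + r) ^ 2 * (1 - p * v)) := by
    have h3 : (1 - r) ^ p = (1 - r) ^ (2 * (4 * q + 1)) * (1 - r) := by
      rw [← pow_succ]
      congr 1
    rw [hx1] at h3
    linear_combination (1 + r) * h3 - (1 - r) ^ (2 * (4 * q + 1)) * hr
  have hprod : (1 + r) ^ (2 * (4 * q + 1)) * (1 - r) ^ (2 * (4 * q + 1)) = 1 := by
    rw [← mul_pow, show (1 + r) * (1 - r) = (-1 : S) by linear_combination -hr, pow_mul]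
    norm_num
  have hww : (1 + r) ^ (2 * (4 * q + 1)) = -((1 - r) ^ 2 * (1 + p * v)) := by
    rw [hkk] at hprod
    linear_combination (-((1 - r) ^ 2 * (1 + p * v))) * hprod - ((1 + r) ^ (2 * (4 * q + 1)) * r ^ 2) * hr +
      ((1 + r) ^ (2 * (4 * q + 1)) * (1 - r ^ 2) ^ 2 * v ^ 2) * hP
  have hpS : (p : S) = 2 * ((4 * q + 1 : ℕ) : S) + 1 := by
    have := congrArg (Nat.cast : ℕ → S) hpm
    push_cast at this ⊢
    exact this
  set a : S := Ff (4 * q + 1) (-2 * (1 + r)) with ha_def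
  set b : S := Ff (4 * q + 1) (-2 * (1 - r)) with hb_def
  set A : S := tF (4 * q + 1) (-2 * (1 + r)) with hA_def
  set B : S := tF (4 * q + 1) (-2 * (1 - r)) with hB_def
  have hdKm' : tK (4 * q + 1) (-2 * (1 - r)) =
      (1 - r) ^ (2 * (4 * q + 1)) * ((1 + r) ^ 2 * A - 2 * ((4 * q + 1 : ℕ) : S) * (1 + r) * a) := by
    have h3 := hdKm
    rw [sub_neg_eq_add, ← sub_eq_add_neg] at h3
    exact h3
  have hw1 : (1 + r) ^ (4 * q + 1) * (1 + r) ^ (4 * q + 1) = -((1 - r) ^ 2 * (1 + p * v)) := by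
    rw [← hww, ← pow_add]
    congr 1
    ring
  have hk1 : Kf (4 * q + 1) (-2 * (1 - r)) = -(1 + r) ^ 2 * (1 - p * v) * a := by
    rw [hKm, hkk]
    ring
  have htk1 : tK (4 * q + 1) (-2 * (1 - r)) =
      -(1 + r) ^ 2 * (1 - p * v) * ((1 + r) ^ 2 * A - (p - 1) * (1 + r) * a) := by
    rw [hdKm', hkk]
    linear_combination ((1 + r) ^ 2 * (1 - p * v) * (-(1 + r) * a)) * hpS
  have hwa : (1 + r) ^ (2 * (4 * q + 1)) = ((1 + r) ^ (4 * q + 1)) ^ 2 := by
    rw [← pow_mul]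
    congr 1
    ring
  have hz : (-2 * (1 - r)) ^ p = -(2 * (1 + 2 * p * al) * ((1 + r) * (1 - p * v))) := by
    have h3 : (2 : S) ^ p = 2 * 2 ^ (p - 1) := by
      rw [← pow_succ']
      congr 1
      omega
    rw [show (-2 * (1 - r)) = -(2 * (1 - r)) by ring, hoddp.neg_pow, mul_pow, hx1, h3, h2S, hal2]
    ring
  have hz1 : (1 - -2 * (1 - r)) ^ p = ((1 + r) * (1 - p * v)) ^ 2 := by
    rw [← hx1, show 1 - -2 * (1 - r) = (1 - r) ^ 2 by linear_combination -hr, ← pow_mul, ← pow_mul]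
    congr 1
    ring
  have hz2 : (1 - -2 * (1 - r)) ^ (p - 1) = ((1 + r) * (1 - p * v)) ^ 2 * (1 + r) ^ 2 := by
    have h3 : (1 - -2 * (1 - r)) ^ p = (1 - -2 * (1 - r)) ^ (p - 1) * (1 - -2 * (1 - r)) := by
      rw [← pow_succ]
      congr 1
      omega
    rw [← hz1, h3, mul_assoc, show (1 - -2 * (1 - r)) * (1 + r) ^ 2 = 1 by linear_combination (-1 - 2 * r) * hr]
    ring
  rw [hz, hz1, hz2, hk1, htk1] at hdII
  have hG4 : 4 * algebraMap (R p) S G1 * algebraMap (R p) S (T2 p (3 * x)) =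
      -(p : S) - 2 * p * algebraMap (R p) S (T2 p (3 * x)) ^ 2 := by
    have h3 := congrArg (algebraMap (R p) S) hG1b
    simpa only [map_mul, map_pow, map_sub, map_neg, map_natCast, map_ofNat] using h3
  have hG5 : (p : S) * algebraMap (R p) S G1 = 0 := by
    have h3 := congrArg (algebraMap (R p) S) hG1a
    simpa only [map_mul, map_natCast, map_zero] using h3
  have hT' : (2 : S) ^ (4 * q + 1) = -(1 + p * al) := by
    rw [hT, hal]
    ring
  have hres := alg3 r (algebraMap (R p) S h) p v al a A B ((1 + r) ^ (4 * q + 1))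
    (algebraMap (R p) S (T2 p (3 * x))) (algebraMap (R p) S G1) (Kr (4 * q + 1) (-2 * (1 - r)))
    (tKr (4 * q + 1) (-2 * (1 - r))) hP hr hhS hw1
    (by
      rw [hwa, hb] at h1
      linear_combination h1)
    (by
      rw [hdKp, hb, hdE] at hdEKp
      push_cast at hdEKp hpS
      rw [hwa] at hdEKp
      linear_combination -hdEKp - ((1 + r) ^ (4 * q + 1) * algebraMap (R p) S (T2 p (3 * x)) +
        ((1 + r) ^ (4 * q + 1)) ^ 2 * ((1 - r) * (-(1 + r) ^ 2 * a))) * hpS)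
    hG4 hG5
    (by
      rw [hk1, hb, hT'] at h2
      linear_combination h2)
    (by
      rw [hT'] at hdLD
      rw [hk1, hb] at hEKm
      rw [htk1] at hdEKm
      linear_combination -4 * hdLD + ((1 + p * al) * (r * (-(1 + r) ^ 2 * a + -(1 + r) ^ 2 * (1 - p * v) * a))) * hpS -
        (2 * (1 + p * al) * (((4 * q + 1 : ℕ) : S) * r)) * hEKm - 2 * (1 + p * al) * hdEKm)
    (by
      rw [hb] at hdII
      linear_combination hdII)
  -- the value `V`
  set V : R p := (-1) ^ (q + 1) * U p q (4 * q + 1) with hV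
  have hVa : -(1 + r) * a = algebraMap (R p) S V := by
    have h3 : 2 * (-(1 + r) * a) = 2 * algebraMap (R p) S V := by
      rw [hb, map_mul, map_ofNat] at hfin
      linear_combination hfin + a * hr
    linear_combination (algebraMap (R p) S h) * h3 - (-(1 + r) * a - algebraMap (R p) S V) * hhS
  have hVu : IsUnit V := by
    rw [hV]
    apply IsUnit.mul
    · exact (isUnit_one.neg).pow _
    · apply isUnit_of_red
      rw [red_U]
      exact (unit_choose p (4 * q + 1) q (by omega) (by omega)).map (red p) |>.ne_zero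
  obtain ⟨W, hW⟩ := hVu.exists_right_inv
  refine ⟨(V ^ 2 + 5 * p) * W, ?_, by linear_combination (V ^ 2 + 5 * p) * hW⟩
  apply rs1 p (4 * q + 1) S r _ hpm hr hinj
  have hWS : algebraMap (R p) S V * algebraMap (R p) S W = 1 := by rw [← map_mul, hW, map_one]
  rw [hVa] at hres
  simp only [map_mul, map_add, map_pow, map_natCast, map_ofNat]
  linear_combination (-(algebraMap (R p) S W)) * hres + (A + B) * hWS -
    (algebraMap (R p) S W) * (algebraMap (R p) S V - (1 + r) * a) * hVa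

end Pool.Agent.U295.SP
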