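import Pool.Agent.U295.SP.D

set_option autoImplicit false

/-!
# The sum weighted by `k`: the case `p ≡ 1` modulo `8`
-/

namespace Pool.Agent.U295.SP

open Finset Pool.Agent.Q267.CDE Pool.Agent.Q267.MW Pool.Agent.Q267.E8

theorem fermat (p : ℕ) [Fact p.Prime] (y : R p) (hy : red p y ≠ 0) : ∃ η : R p, y ^ (p - 1) = 1 + p * η := by
  apply red_eq_of
  rw [map_pow, map_one, ZMod.pow_card_sub_one_eq_one hy]

/-- Case 1 -/
theorem s1_case1 (p q : ℕ) [Fact p.Prime] (hq : 0 < q) (hpq : p = 8 * q + 1) : IsRed p (S1 p) 0 := by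
  have hpf : p.Prime := Fact.out
  have hp2 : p ≠ 2 := by omega
  have hpm : p = 2 * (4 * q) + 1 := by omega
  obtain ⟨r, hr⟩ := exists_sqrt p (by omega)
  obtain ⟨h, hh⟩ := exists_half p hp2
  obtain ⟨h', x, hh', hx⟩ := exists_x4 p hp2
  have hpR : (p : R p) = 8 * q + 1 := by
    have := congrArg (Nat.cast : ℕ → R p) hpq
    push_cast at this
    exact this
  have hP := p_sq p
  have hxe : p * x + 2 * q = x := by
    apply four_cancel p hp2
    linear_combination ((p : R p) - 1) * hx - hpR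
  have hPS : ∑ j ∈ range (2 * q + 1), (((2 * (2 * q)).choose (2 * j) : ℕ) : R p) * ((j.centralBinom : ℕ) : R p) *
      (h ^ 2) ^ j * 2 ^ (2 * q - j) = T2 p x := by
    rw [Pool.Agent.Q181.E8.pe p (2 * q) h hh (by omega)]
    apply Pool.Agent.Q153.E8.pg p (2 * q) x (-((2 * q : ℕ) : R p) - h) (-x) (by omega)
    · push_cast
      linear_combination hxe
    · apply four_cancel p hp2
      push_cast
      linear_combination -(1 + (p : R p)) * hx - 2 * hh + hpR
  have hcf : ∑ j ∈ range (2 * q + 1), cf p (2 * (2 * q)) (2 * q) j h = T2 p x := hPS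
  have hG1a := G1_case1 p q hpq h hh hq
  have hdE := dEVe p (2 * q) (R p) r h hr hh
  have hid : ∀ y : R p, algebraMap (R p) (R p) y = y := fun y => rfl
  rw [hcf] at hdE
  simp only [hid] at hdE
  obtain ⟨G1, hG1⟩ : ∃ G1 : R p, G1 = ∑ j ∈ range (2 * q + 1), 2 * j * cf p (2 * (2 * q)) (2 * q) j h := ⟨_, rfl⟩
  rw [← hG1] at hG1a hdE
  rw [show 2 * (2 * q) = 4 * q by ring] at hdE
  have hE : Ef (4 * q) ((1 + r) * h) = (1 + r) ^ (4 * q) * T2 p x := by
    have := Pool.Agent.Q176.E8.pv1 ev p (2 * q) (R p) r h hr hh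
    rw [hPS] at this
    have e4 : 2 * (2 * q) = 4 * q := by ring
    rw [e4] at this
    exact this
  have hKp := K1_plus k1 (R p) (4 * q) r hr
  have hKm := K1_minus k1 (R p) (4 * q) r hr
  have hdKp := dK1 (4 * q) r hr
  have hdKm := dK1 (4 * q) (-r) (by rw [neg_sq, hr])
  rw [sub_neg_eq_add, ← sub_eq_add_neg] at hdKm
  have hEKp := ek p (4 * q) (R p) (-2 * (1 + r)) ((1 + r) * h) hpm
    (by linear_combination -2 * (1 + r) * hh)
  have hEKm := ek p (4 * q) (R p) (-2 * (1 - r)) ((1 - r) * h) hpm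
    (by linear_combination -2 * (1 - r) * hh)
  have hdEKp := dEK p (4 * q) (R p) (-2 * (1 + r)) ((1 + r) * h) hpm
    (by linear_combination -2 * (1 + r) * hh)
  have hdEKm := dEK p (4 * q) (R p) (-2 * (1 - r)) ((1 - r) * h) hpm
    (by linear_combination -2 * (1 - r) * hh)
  have h1 : Ff (4 * q) (-2 * (1 + r)) + (1 + r) ^ (2 * (4 * q)) * Ff (4 * q) (-2 * (1 - r)) =
      2 * ((1 + r) ^ (4 * q) * T2 p x) := by
    rw [← hKp, ← hEKp, hE]
  -- the Landen transformation
  have hLD := Pool.Agent.Q164.E8.ld (R p) (4 * q) (r - 1) h (by linear_combination h * hr + hh)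
  have hK2 := Pool.Agent.Q121.E8.k2 (R p) (4 * q) (-2 * (1 - r))
  have e5 : (1 : R p) - -2 * (1 - r) = (r - 1) ^ 2 := by linear_combination -hr
  have heven : ((-1 : R p)) ^ (4 * q) = 1 := by
    rw [pow_mul]
    norm_num
  rw [e5, heven] at hK2
  have e6 : (1 + (r - 1)) ^ (2 * (4 * q)) = (2 : R p) ^ (4 * q) := by
    rw [pow_mul, show (1 + (r - 1)) ^ 2 = (2 : R p) by linear_combination hr]
  rw [hK2, e6, show -((r - 1) * h) = (1 - r) * h by ring] at hLD
  have hII := Pool.Agent.Q192.E8.ii Pool.Agent.Q265.E8.lg Pool.Agent.Q265.E8.lm Pool.Agent.Q153.E8.df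
    p (4 * q) (R p) (-2 * (1 - r)) hpm (by omega)
  have hdLD := dLD (4 * q) r h hr hh
  rw [heven] at hdLD
  have hdII := dII p (4 * q) (R p) (-2 * (1 - r)) hpm (by omega)
  -- the constants
  have hur : red p r ≠ 0 := by
    intro h0
    have h2 := congrArg (red p) hr
    rw [map_pow, h0, map_ofNat] at h2
    have h20 : (2 : ZMod p) ≠ 0 := by
      have := cast_ne p 2 (by norm_num) (by omega)
      exact_mod_cast this
    apply h20
    rw [← h2]
    ring
  have hum : red p (1 - r) ≠ 0 := by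
    intro h0
    have h2 := congrArg (red p) (show (1 - r) * (-(1 + r)) = 1 by linear_combination hr)
    rw [map_mul, h0, zero_mul, map_one] at h2
    exact zero_ne_one h2
  obtain ⟨al, hal⟩ := fermat p r hur
  obtain ⟨eta, heta⟩ := fermat p (1 - r) hum
  have hp1 : p - 1 = 2 * (4 * q) := by omega
  have hT : (2 : R p) ^ (4 * q) = 1 + p * al := by
    rw [← hal, hp1, pow_mul r, hr]
  have hkk : (1 - r) ^ (2 * (4 * q)) = 1 + p * eta := by
    rw [← heta, hp1]
  have hprod : (1 + r) ^ (2 * (4 * q)) * (1 - r) ^ (2 * (4 * q)) = 1 := by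
    rw [← mul_pow, show (1 + r) * (1 - r) = (-1 : R p) by linear_combination -hr, pow_mul]
    norm_num
  have hww : (1 + r) ^ (2 * (4 * q)) = 1 - p * eta := by
    rw [hkk] at hprod
    linear_combination (1 - (p : R p) * eta) * hprod + ((1 + r) ^ (2 * (4 * q)) * eta ^ 2) * hP
  have hpS : (p : R p) = 2 * ((4 * q : ℕ) : R p) + 1 := by
    push_cast
    linear_combination hpR
  set a : R p := Ff (4 * q) (-2 * (1 + r)) with ha_def
  set b : R p := Ff (4 * q) (-2 * (1 - r)) with hb_def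
  set A : R p := tF (4 * q) (-2 * (1 + r)) with hA_def
  set B : R p := tF (4 * q) (-2 * (1 - r)) with hB_def
  have hk1 : Kf (4 * q) (-2 * (1 - r)) = (1 + p * eta) * a := by
    rw [hKm, hkk]
  have htk1 : tK (4 * q) (-2 * (1 - r)) =
      (1 + p * eta) * ((1 + r) ^ 2 * A - (p - 1) * (1 + r) * a) := by
    rw [hdKm, hkk]
    linear_combination ((1 + p * eta) * ((1 + r) * a)) * hpS
  have hoddp : Odd p := ⟨4 * q, by omega⟩
  have hx1 : (1 - r) ^ p = (1 - r) * (1 + p * eta) := by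
    rw [← heta, ← pow_succ']
    congr 1
    omega
  have h2p : (2 : R p) ^ p = 2 * (1 + 2 * p * al) := by
    have h3 : (2 : R p) ^ p = 2 * (2 ^ (4 * q)) ^ 2 := by
      rw [← pow_mul, ← pow_succ']
      congr 1
      omega
    rw [h3, hT]
    linear_combination 2 * al ^ 2 * hP
  have hz : (-2 * (1 - r)) ^ p = -(2 * (1 + 2 * p * al) * ((1 - r) * (1 + p * eta))) := by
    rw [show (-2 * (1 - r)) = -(2 * (1 - r)) by ring, hoddp.neg_pow, mul_pow, hx1, h2p]
  have hz1 : (1 - -2 * (1 - r)) ^ p = ((1 - r) * (1 + p * eta)) ^ 2 := by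
    rw [← hx1, show 1 - -2 * (1 - r) = (1 - r) ^ 2 by linear_combination -hr, ← pow_mul, ← pow_mul]
    congr 1
    ring
  have hz2 : (1 - -2 * (1 - r)) ^ (p - 1) = (1 + p * eta) ^ 2 := by
    rw [← heta, show 1 - -2 * (1 - r) = (1 - r) ^ 2 by linear_combination -hr, ← pow_mul, ← pow_mul]
    congr 1
    ring
  have hs : 2 * Kr (4 * q) (-2 * (1 - r)) = (1 + p * al) * (b + (1 + p * eta) * a) := by
    rw [hT] at hLD
    rw [hk1] at hEKm
    linear_combination 2 * hLD + (1 + p * al) * hEKm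
  rw [hz, hz1, hk1] at hII
  have hba : b = a := alg1b r h p eta al a b (Kr (4 * q) (-2 * (1 - r))) hP hr hh hs hII
  rw [hba] at hs hdII hdKp h1 hEKm
  rw [hz, hz1, hz2, hk1, htk1] at hdII
  have hPW : (p : R p) * ((1 + r) ^ (4 * q) * T2 p x) = p * a := by
    have h2u : IsUnit (2 : R p) := by
      have := isUnit_nat p 2 (by norm_num) (by omega)
      exact_mod_cast this
    apply h2u.mul_left_cancel
    rw [hww] at h1
    linear_combination (-(p : R p)) * h1 - eta * a * hP
  have hh3 : (p : R p) * (2 * A + 2 * (1 - r) ^ 2 * B + 2 * (1 - r) * a + r * a) = 0 := by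
    rw [hdKp, hww, hdE] at hdEKp
    push_cast at hdEKp hpS
    linear_combination -2 * (p : R p) * hdEKp + (2 * (1 - r) * a) * hP - (2 * (p : R p) * (1 - r) * a) * hpS +
      (2 * ((1 + r) ^ (4 * q) * T2 p x) * r * h) * hP - (2 * (p : R p) * ((1 + r) ^ (4 * q) * T2 p x) * r * h) * hpS -
      (2 * r * h) * hPW - ((p : R p) * r * a) * hh + (4 * (1 + r) ^ (4 * q) * (1 - r * h)) * hG1a +
      (2 * eta * ((1 - r) ^ 2 * B - 8 * q * (1 - r) * a)) * hP
  have hres := alg1 r h p eta al a A B (Kr (4 * q) (-2 * (1 - r))) (tKr (4 * q) (-2 * (1 - r))) hP hr hh hh3 hs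
    (by
      rw [hT] at hdLD
      rw [hk1] at hEKm
      rw [htk1] at hdEKm
      linear_combination 4 * hdLD + ((1 + p * al) * (r * (a + (1 + p * eta) * a))) * hpS -
        (2 * (1 + p * al) * (((4 * q : ℕ) : R p) * r)) * hEKm - 2 * (1 + p * al) * hdEKm)
    (by linear_combination hdII)
  apply rs1 p (4 * q) (R p) r _ hpm hr
  · intro a b hab
    exact hab
  · rw [map_zero]
    exact hres.symm

end Pool.Agent.U295.SP
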