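import Pool.Agent.U295.SP.E

set_option autoImplicit false

/-!
# The sum weighted by `k`: the final congruences
-/

namespace Pool.Agent.U295.SP

open Finset Pool.Agent.Q267.CDE Pool.Agent.Q267.MW Pool.Agent.Q267.E8

theorem fin_alg2 (p : ℕ) [Fact p.Prime] (X V c : R p) (hXu : IsUnit (2 * X)) (hX : (2 * X - V) * (2 * X) = p)
    (hc : c * V = V ^ 2 + 5 * p) : c * (2 * X) = 4 * X ^ 2 + 4 * p := by
  have hP := p_sq p
  obtain ⟨W, hW⟩ := hXu.exists_right_inv
  have h1 : 2 * X - V = p * W := by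
    linear_combination W * hX - (2 * X - V) * hW
  have h2 : (p : R p) * (2 * X - V) = 0 := by
    rw [h1]
    linear_combination W * hP
  have hV : IsUnit V := by
    apply isUnit_of_red
    have e : V = 2 * X + p * (-W) := by linear_combination -h1
    rw [e, map_add, map_mul (red p) (p : R p), red_nat, ZMod.natCast_self, zero_mul, add_zero]
    exact (hXu.map (red p)).ne_zero
  apply hV.mul_right_cancel
  linear_combination (2 * X) * hc - V * hX + 5 * h2

/-- the rational number `2 (x + p/x)` -/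
theorem isRed_val2 (p : ℕ) [Fact p.Prime] (x : ℤ) (hx : ¬ (p : ℤ) ∣ 2 * x) (c : R p)
    (h : c * (2 * (x : R p)) = 4 * (x : R p) ^ 2 + 4 * p) : IsRed p (2 * ((x : ℚ) + p / x)) c := by
  have hx0 : x ≠ 0 := by
    rintro rfl
    exact hx (by simp)
  have hxq : (x : ℚ) ≠ 0 := by exact_mod_cast hx0
  rcases le_or_gt 0 x with h0 | h0
  · obtain ⟨n, rfl⟩ := Int.eq_ofNat_of_zero_le h0
    refine ⟨4 * (n : ℤ) ^ 2 + 4 * p, 2 * n, ?_, ?_, ?_⟩
    · intro hd
      apply hx
      exact_mod_cast hd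
    · push_cast at hxq ⊢
      field_simp
      ring
    · push_cast at h ⊢
      linear_combination -h
  · obtain ⟨n, hn⟩ := Int.eq_ofNat_of_zero_le (show 0 ≤ -x by omega)
    have hxn : x = -(n : ℤ) := by omega
    subst hxn
    refine ⟨-(4 * (n : ℤ) ^ 2 + 4 * p), 2 * n, ?_, ?_, ?_⟩
    · intro hd
      apply hx
      rw [show (2 : ℤ) * -(n : ℤ) = -((2 * n : ℕ) : ℤ) by push_cast; ring, Int.dvd_neg]
      exact_mod_cast hd
    · push_cast at hxq ⊢
      have : (n : ℚ) ≠ 0 := by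
        intro h
        apply hxq
        rw [h, neg_zero]
      field_simp
      ring
    · push_cast at h ⊢
      linear_combination h

theorem main3 (p : ℕ) [Fact p.Prime] (h3 : 3 < p) (h8 : p % 8 = 3) (x y : ℤ) (hxy : (p : ℤ) = x ^ 2 + 2 * y ^ 2)
    (hx : (4 : ℤ) ∣ x - 1) : Cong p 2 (S1 p) (2 * ((x : ℚ) + p / x)) := by
  obtain ⟨q, hq⟩ : ∃ q, p = 8 * q + 3 := ⟨p / 8, by omega⟩
  obtain ⟨c, hc1, hc2⟩ := s1_case3 p q (by omega) hq
  refine ((Pool.Agent.Q10.E8.rb p (S1 p) _ _) hc1).1 ?_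
  have hnd := ndvd p h3 x y hxy
  apply isRed_val2 p x hnd
  have hu : IsUnit (2 * (x : R p)) := by
    apply isUnit_of_red
    intro h0
    apply hnd
    rw [← ZMod.intCast_zmod_eq_zero_iff_dvd]
    rw [map_mul, map_ofNat, map_intCast] at h0
    push_cast
    exact h0
  exact fin_alg2 p (x : R p) _ c hu (case3 wa wc p q (by omega) hq x y hxy hx) hc2

theorem main1 (p : ℕ) [Fact p.Prime] (h8 : p % 8 = 1) : Cong p 2 (S1 p) 0 := by
  have hp := (Fact.out : p.Prime).one_lt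
  obtain ⟨q, hq⟩ : ∃ q, p = 8 * q + 1 := ⟨p / 8, by omega⟩
  refine ((Pool.Agent.Q10.E8.rb p (S1 p) _ _) (s1_case1 p q (by omega) hq)).1 ?_
  refine ⟨0, 1, ?_, by simp, by simp⟩
  rw [Nat.dvd_one]
  omega

end Pool.Agent.U295.SP
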