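import Pool.Agent.U295.SP.B

set_option autoImplicit false

/-!
# The value of the derivative sum modulo `p²`
-/

namespace Pool.Agent.U295.SP

open Finset Pool.Agent.Q267.CDE Pool.Agent.Q267.MW Pool.Agent.Q267.E8

theorem Wsum (p n : ℕ) [hp : Fact p.Prime] (x y c : R p) (hn : n + 1 < p) (hx : (n : R p) = x + p * c)
    (hy : y = x - p * c) (hT : p * T2 p (x + 1) = 0) (hp2 : p ≠ 2) :
    ((n : R p) + 1) * (2 * (∑ k ∈ range (n + 1), (-1) ^ k * ((n.choose k : ℕ) : R p) * bR p (y + 1) k) -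
      2 * T2 p x - T2 p (x + 1)) = -2 * p * c * T2 p x := by
  have hP := p_sq p
  have hTx := Pool.Agent.Q153.E8.pg p n x y c (by omega) hx hy
  have hTx1 := Pool.Agent.Q153.E8.pg p (n + 1) (x + 1) (y + 1) c hn (by push_cast; rw [hx]; ring)
    (by rw [hy]; ring)
  have hg0 : ((n.choose (n + 1) : ℕ) : R p) = 0 := by
    rw [Nat.choose_eq_zero_of_lt (by omega)]
    simp
  set s1 := ∑ k ∈ range (n + 1), (-1) ^ k * ((n.choose k : ℕ) : R p) * bR p y k with hs1
  set Z := ∑ k ∈ range (n + 1), (-1) ^ (k + 1) * ((n.choose (k + 1) : ℕ) : R p) * bR p y k with hZ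
  set Z' := ∑ k ∈ range (n + 1), (-1) ^ (k + 1) * ((n.choose k : ℕ) : R p) * bR p y (k + 1) with hZ'
  set s2 := ∑ k ∈ range (n + 1), (-1) ^ (k + 1) * ((n.choose (k + 1) : ℕ) : R p) * bR p y (k + 1) with hs2
  have e1 : s2 + 1 = s1 := by
    have h1 := sum_range_succ' (fun k => (-1) ^ k * ((n.choose k : ℕ) : R p) * bR p y k) (n + 1)
    have h2 := sum_range_succ (fun k => (-1) ^ k * ((n.choose k : ℕ) : R p) * bR p y k) (n + 1)
    have h3 := Pool.Agent.Q64.E8.bR_zero p y
    simp only [hg0, mul_zero, zero_mul, add_zero] at h2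
    rw [h2, h3, Nat.choose_zero_right] at h1
    rw [hs1, h1, hs2]
    push_cast
    ring
  have e2 : T2 p (x + 1) = Z + Z' := by
    rw [← hTx1, sum_range_succ', Pool.Agent.Q64.E8.bR_zero, Nat.choose_zero_right]
    have h1 : ∑ k ∈ range (n + 1), (-1) ^ (k + 1) * (((n + 1).choose (k + 1) : ℕ) : R p) * bR p (y + 1) (k + 1) =
        s2 - s1 + Z + Z' := by
      rw [hs2, hs1, hZ, hZ', ← sum_sub_distrib, ← sum_add_distrib, ← sum_add_distrib]
      refine sum_congr rfl fun k hk => ?_
      rw [mem_range] at hk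
      rw [Pool.Agent.Q299.E8.bR_pascal p y k (by omega), Nat.choose_succ_succ]
      push_cast
      rw [pow_succ (-1 : R p) k]
      ring
    rw [h1, ← e1]
    push_cast
    ring
  have e3 : ∑ k ∈ range (n + 1), (-1) ^ k * ((n.choose k : ℕ) : R p) * bR p (y + 1) k = s1 + Z := by
    have h1 := sum_range_succ' (fun k => (-1) ^ k * ((n.choose k : ℕ) : R p) * bR p (y + 1) k) (n + 1)
    have h2 := sum_range_succ (fun k => (-1) ^ k * ((n.choose k : ℕ) : R p) * bR p (y + 1) k) (n + 1)
    have h3 := Pool.Agent.Q64.E8.bR_zero p (y + 1)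
    simp only [hg0, mul_zero, zero_mul, add_zero] at h2
    rw [h2, h3, Nat.choose_zero_right] at h1
    rw [h1, ← e1, hs2, hZ]
    have h4 : ∑ k ∈ range (n + 1), (-1) ^ (k + 1) * ((n.choose (k + 1) : ℕ) : R p) * bR p (y + 1) (k + 1) =
        ∑ k ∈ range (n + 1), (-1) ^ (k + 1) * ((n.choose (k + 1) : ℕ) : R p) * bR p y (k + 1) +
        ∑ k ∈ range (n + 1), (-1) ^ (k + 1) * ((n.choose (k + 1) : ℕ) : R p) * bR p y k := by
      rw [← sum_add_distrib]
      refine sum_congr rfl fun k hk => ?_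
      rw [mem_range] at hk
      rw [Pool.Agent.Q299.E8.bR_pascal p y k (by omega)]
      ring
    rw [h4]
    push_cast
    ring
  have e4 : ((n : R p) + 1) * (Z - Z') = 2 * p * c * (Z - s1) := by
    rw [hZ, hZ', hs1, ← sum_sub_distrib, ← sum_sub_distrib, mul_sum, mul_sum]
    refine sum_congr rfl fun k hk => ?_
    rw [mem_range] at hk
    have hu := Pool.Agent.Q299.E8.unit_succ p k (by omega)
    have b1 := Pool.Agent.Q299.E8.bR_succ p y k (by omega)
    have c1 : ((n.choose (k + 1) : ℕ) : R p) * ((k : R p) + 1) = ((n.choose k : ℕ) : R p) * ((n : R p) - k) := by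
      have h1 := Nat.choose_succ_right_eq n k
      have h2 := congrArg (Nat.cast : ℕ → R p) h1
      rw [Nat.cast_mul, Nat.cast_mul, Nat.cast_sub (by omega)] at h2
      push_cast at h2
      exact h2
    have c2 : ((n : R p) + 1) * ((n.choose k : ℕ) : R p) = (((n.choose k : ℕ) : R p) + ((n.choose (k + 1) : ℕ) : R p)) *
        ((k : R p) + 1) := by
      have h1 := Nat.add_one_mul_choose_eq n k
      rw [Nat.choose_succ_succ] at h1
      have h2 := congrArg (Nat.cast : ℕ → R p) h1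
      push_cast at h2
      exact h2
    apply hu.mul_left_cancel
    set γ := ((n.choose k : ℕ) : R p)
    set γ' := ((n.choose (k + 1) : ℕ) : R p)
    set β := bR p y k
    set β' := bR p y (k + 1)
    have hny : (n : R p) - y = 2 * p * c := by rw [hx, hy]; ring
    rw [pow_succ (-1 : R p) k]
    linear_combination (-(-1) ^ k * ((n : R p) + 1) * β) * c1 + ((-1) ^ k * ((n : R p) + 1) * γ) * b1 -
      ((-1) ^ k * ((n : R p) + 1) * γ * β) * hny - (2 * p * c * (-1) ^ k * β) * c2
  have hun : IsUnit ((n : R p) + 1) := by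
    have := isUnit_nat p (n + 1) (by omega) hn
    push_cast at this
    exact this
  have hu2 : IsUnit (2 : R p) := by
    have := isUnit_nat p 2 (by norm_num) (lt_of_le_of_ne hp.out.two_le (Ne.symm hp2))
    exact_mod_cast this
  have h5 : (p : R p) * (Z - Z') = 0 := by
    apply hun.mul_left_cancel
    linear_combination (p : R p) * e4 + 2 * c * (Z - s1) * hP
  have h6 : (p : R p) * (Z + Z') = 0 := by rw [← e2, hT]
  have h7 : (p : R p) * Z = 0 := by
    apply hu2.mul_left_cancel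
    linear_combination h5 + h6
  rw [e3, e2, ← hTx]
  linear_combination e4 + 2 * c * h7

/-- the values needed in the case `p = 8q + 3` -/
theorem G1_case3 (p q : ℕ) [hp : Fact p.Prime] (hpq : p = 8 * q + 3) (h x : R p) (hh : 2 * h = 1) (hx : 4 * x = -1)
    (hxe : p * x + 2 * q = 3 * x) (hq : 0 < q)
    (hG : ∑ j ∈ range (2 * q + 1), cf p (2 * (2 * q) + 1) (2 * q) j h = T2 p (3 * x)) :
    p * (∑ j ∈ range (2 * q + 1), 2 * j * cf p (2 * (2 * q) + 1) (2 * q) j h) = 0 ∧
    4 * (∑ j ∈ range (2 * q + 1), 2 * j * cf p (2 * (2 * q) + 1) (2 * q) j h) * T2 p (3 * x) =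
      (2 * 16 ^ q) * p - 2 * p * T2 p (3 * x) ^ 2 := by
  have hP := p_sq p
  have hp2 : p ≠ 2 := by omega
  have h4 : IsUnit (4 : R p) := by
    have := isUnit_nat p 4 (by norm_num) (by omega)
    exact_mod_cast this
  obtain ⟨hb0, hb1⟩ := T2_prod p x (by omega) q (by omega)
  have ex1 : p * x + (2 * (q : R p) + 1) = 3 * x + 1 := by linear_combination hxe
  rw [ex1] at hb0 hb1
  rw [hxe] at hb1
  have hnq : (((2 * q : ℕ)) : R p) = 3 * x + p * (-x) := by
    push_cast
    linear_combination hxe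
  have hW := Wsum p (2 * q) (3 * x) (3 * x + p * x) (-x) (by omega) hnq (by ring) hb0 hp2
  have hpe := Pool.Agent.Q181.E8.pe p (2 * q) h hh (by omega)
  have hy : -((2 * q : ℕ) : R p) - h = 3 * x + p * x + 1 := by
    apply four_cancel p hp2
    rw [hnq]
    linear_combination -2 * hh - 6 * hx
  rw [hy] at hpe
  rw [← hpe] at hW
  have hG1 := G1_odd p (2 * q) h
  rw [hG1, hG]
  have hGe : ∑ j ∈ range (2 * q + 1), cf p (2 * (2 * q)) (2 * q) j h = ∑ j ∈ range (2 * q + 1),
      (((2 * (2 * q)).choose (2 * j) : ℕ) : R p) * ((j.centralBinom : ℕ) : R p) * (h ^ 2) ^ j * 2 ^ (2 * q - j) := rfl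
  rw [hGe]
  set W := ∑ j ∈ range (2 * q + 1),
      (((2 * (2 * q)).choose (2 * j) : ℕ) : R p) * ((j.centralBinom : ℕ) : R p) * (h ^ 2) ^ j * 2 ^ (2 * q - j)
  set G := T2 p (3 * x)
  set b := T2 p (3 * x + 1)
  have hpR : (p : R p) = 8 * q + 3 := by
    have := congrArg (Nat.cast : ℕ → R p) hpq
    push_cast at this
    exact this
  push_cast at hW ⊢
  -- `2 W = 2 G + b - 2 p G`
  have hW2 : 2 * W = 2 * G + b - 2 * p * G := by
    have h1 : (1 + (p : R p)) * (2 * W - 2 * G - b) = -2 * p * G := by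
      linear_combination 4 * hW + (2 * W - 2 * G - b) * hpR + 2 * p * G * hx
    linear_combination (1 - (p : R p)) * h1 + (2 * W - 2 * G - b + 2 * G) * hP
  have hbG : b * G = 2 * 16 ^ q * p := by
    have h1 : (1 + (p : R p)) * (b * G) = 2 * 16 ^ q * p := by
      linear_combination 4 * hb1 + (b * G) * hpR - 2 * p * 16 ^ q * hx
    linear_combination h1 - G * hb0
  have h2u : IsUnit (2 : R p) := by
    have := isUnit_nat p 2 (by norm_num) (by omega)
    exact_mod_cast this
  constructor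
  · apply h2u.mul_left_cancel
    linear_combination -(p : R p) * (2 * (2 * q) + 1) * hW2 - (2 * (2 * q) + 1) * hb0 + 2 * (2 * (2 * q) + 1) * G * hP
  · linear_combination hbG + (2 * G) * (2 * (2 * (q : R p)) + 1) * (-hW2) + G * (-b + 2 * p * G) * (-hpR) - G * hb0 +
      2 * G ^ 2 * hP

end Pool.Agent.U295.SP
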